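import Pool.Agent.H30.MG.Cn

/-!
Project MG (MP_78d38b_nt): the configuration theorem (no row).
-/

set_option autoImplicit false
set_option linter.unusedSectionVars false
open scoped Classical

open WithZero NumberField IsDedekindDomain H38RT
open H38T1 (SC sc scu rep rep_ne sc_rep sc_mul sc_eq_zero sc_surj eo la si Pri OddP tp unif ka)
open H76PP H36MX H76MQ H76MX H73P2 H76AB H88AB H36MG H36CY Pool.Agent.H42.PC

namespace H30MG

section Self

variable {K F : Type} [Field K] [NumberField K] [Field F] [NumberField F] [Algebra K F]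

theorem over_of {w : HeightOneSpectrum (𝓞 F)} {u : HeightOneSpectrum (𝓞 K)} (h : dn K w = u) :
    Pool.Agent.H10.Over u w := by
  subst h
  exact over_dn w

theorem dn_self (W : HeightOneSpectrum (𝓞 F)) : dn F W = W := by
  apply HeightOneSpectrum.ext
  ext x
  rfl

theorem res_self [IsGalois K F] (h : F ≃ₐ[K] F) : AlgEquiv.restrictNormalHom F h = h := by
  apply AlgEquiv.ext
  intro x
  exact res_apply (F := F) h x

/-- The stabilizer of an element. -/
def stR (K : Type) {F : Type} [Field K] [Field F] [Algebra K F] (ρ : F) :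
    Subgroup (F ≃ₐ[K] F) where
  carrier := {g | g ρ = ρ}
  mul_mem' := by
    intro a b ha hb
    show (a * b) ρ = ρ
    rw [AlgEquiv.mul_apply]
    have ha' : a ρ = ρ := ha
    have hb' : b ρ = ρ := hb
    rw [hb', ha']
  one_mem' := rfl
  inv_mem' := by
    intro a ha
    have ha' : a ρ = ρ := ha
    show a⁻¹ ρ = ρ
    have h1 : a⁻¹ (a ρ) = ρ := a.symm_apply_apply ρ
    rwa [ha'] at h1

theorem mem_stR {ρ : F} {g : F ≃ₐ[K] F} : g ∈ stR K ρ ↔ g ρ = ρ := Iff.rfl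

variable {ρ : F} {d : K}

theorem stR_sign (hρ : ρ ^ 2 = algebraMap K F d) (g : F ≃ₐ[K] F) : g ρ = ρ ∨ g ρ = -ρ := by
  apply sq_eq_sq_iff_eq_or_eq_neg.1
  rw [← map_pow, hρ, g.commutes]

theorem stR_normal (hρ : ρ ^ 2 = algebraMap K F d) : (stR K ρ).Normal := by
  refine ⟨fun g hg h => ?_⟩
  rw [mem_stR] at hg ⊢
  have h1 : g (h⁻¹ ρ) = h⁻¹ ρ := by
    rcases stR_sign hρ h⁻¹ with h2 | h2
    · rw [h2, hg]
    · rw [h2, map_neg, hg]
  rw [AlgEquiv.mul_apply, AlgEquiv.mul_apply, h1]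
  exact h.apply_symm_apply ρ

theorem stR_dcase (hρ : ρ ^ 2 = algebraMap K F d) (W : HeightOneSpectrum (𝓞 F)) :
    DCase W (stR K ρ) K ρ := by
  by_cases h : Dec K W ≤ stR K ρ
  · exact Or.inl h
  · obtain ⟨g, hg, hgT⟩ := SetLike.not_le_iff_exists.1 h
    have hgρ : g ρ = -ρ := (stR_sign hρ g).resolve_left hgT
    have hginv : g⁻¹ ρ = -ρ := by
      have h1 : g⁻¹ (g ρ) = ρ := g.symm_apply_apply ρ
      rw [hgρ, map_neg] at h1
      exact neg_eq_iff_eq_neg.1 h1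
    refine Or.inr ⟨g, hg, 0, fun h hh => ?_, fun x => ?_, ?_, ?_⟩
    · rcases stR_sign hρ h with h2 | h2
      · exact ⟨0, h, h2, by group⟩
      · refine ⟨1, g⁻¹ * h, ?_, by group⟩
        rw [mem_stR, AlgEquiv.mul_apply, h2, map_neg, hginv, neg_neg]
    · exact AlgEquiv.commutes _ x
    · rw [pow_zero, pow_one, hgρ]
    · rw [pow_zero, pow_one, sq, mem_stR, AlgEquiv.mul_apply, hgρ, map_neg, hgρ, neg_neg]

end Self

/-- **The configuration theorem.** -/
theorem existsCfgMG : ExistsCfgMG := by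
  intro K F₀ _ _ _ _ _ _ r hr hH hHF R₀ hR₀
  have hfd : FiniteDimensional K F₀ := Module.Finite.of_restrictScalars_finite ℚ K F₀
  have hp : IsPGroup 2 (F₀ ≃ₐ[K] F₀) := IsPGroup.of_card (n := r) (by
    rw [IsGalois.card_aut_eq_finrank, hr])
  obtain ⟨η, hη0, hη2, hηo⟩ := exists_etaG K
  choose wp hwp using fun u : HeightOneSpectrum (𝓞 K) => exists_above (L := F₀) u
  have ho : ∀ u, Pool.Agent.H10.Over u (wp u) := fun u => over_of (hwp u)
  have hNC2 : ∀ p : HeightOneSpectrum (𝓞 K), (2 : 𝓞 K) ∈ p.asIdeal → NC (Dec K (wp p)) :=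
    fun p h2 => hH (wp p) (by rw [hwp]; exact h2)
  obtain ⟨Aux, hAux⟩ : ∃ Aux : Set (HeightOneSpectrum (𝓞 K)), ∀ u, u ∈ Aux ↔
      (6 : 𝓞 K) ∉ u.asIdeal ∧ Un K F₀ u ∧ (∃ g, Dec K (wp u) = Subgroup.zpowers g) ∧
      (Dec K (wp u) = ⊥ ∨ ∃ p : HeightOneSpectrum (𝓞 K), (2 : 𝓞 K) ∈ p.asIdeal ∧
        Dec K (wp u) ≤ Dec K (wp p)) := ⟨{u | _}, fun u => Iff.rfl⟩
  have h26 : ∀ u : HeightOneSpectrum (𝓞 K), (6 : 𝓞 K) ∉ u.asIdeal → (2 : 𝓞 K) ∉ u.asIdeal := by
    intro u h6 h2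
    apply h6
    rw [show (6 : 𝓞 K) = 2 * 3 by norm_num]
    exact Ideal.mul_mem_right _ _ h2
  have h6f : {v : HeightOneSpectrum (𝓞 K) | (6 : 𝓞 K) ∈ v.asIdeal}.Finite :=
    H30MQ.fin_mem (by
      intro h
      have h1 : algebraMap (𝓞 K) K 6 = 0 := by rw [h, map_zero]
      rw [map_ofNat] at h1
      norm_num at h1)
  -- auxiliary places
  have hreal : ∀ g : F₀ ≃ₐ[K] F₀, (g = 1 ∨ ∃ p : HeightOneSpectrum (𝓞 K),
      (2 : 𝓞 K) ∈ p.asIdeal ∧ g ∈ Dec K (wp p)) →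
      {u : HeightOneSpectrum (𝓞 K) | u ∈ Aux ∧ Dec K (wp u) = Subgroup.zpowers g}.Infinite := by
    intro g hg
    refine (exists_dec g _ h6f).mono ?_
    rintro u ⟨h6, hun, W, hWu, hW⟩
    have hn : (Dec K W).Normal := by
      rw [hW]
      rcases hg with rfl | ⟨p, h2, hgp⟩
      · rw [Subgroup.zpowers_one_eq_bot]
        infer_instance
      · exact ((hNC2 p h2).mono (Subgroup.zpowers_le.2 hgp)).normal
    have hD : Dec K (wp u) = Subgroup.zpowers g := by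
      rw [← hW]
      exact dec_eq (by rw [hwp, hWu]) hn
    refine ⟨(hAux u).2 ⟨h6, hun, ⟨g, hD⟩, ?_⟩, hD⟩
    rcases hg with rfl | ⟨p, h2, hgp⟩
    · left
      rw [hD, Subgroup.zpowers_one_eq_bot]
    · right
      refine ⟨p, h2, ?_⟩
      rw [hD]
      exact Subgroup.zpowers_le.2 hgp
  -- properties of the decomposition groups
  have hNC : ∀ u : HeightOneSpectrum (𝓞 K), ((2 : 𝓞 K) ∈ u.asIdeal ∨ u ∈ Aux) →
      NC (Dec K (wp u)) := by
    rintro u (h2 | hu)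
    · exact hNC2 u h2
    · rcases ((hAux u).1 hu).2.2.2 with h | ⟨p, h2, h⟩
      · rw [h]
        refine ⟨fun x hx y hy => ?_, fun x hx y => ?_⟩
        · rw [Subgroup.mem_bot.1 hx, Subgroup.mem_bot.1 hy]
        · rw [Subgroup.mem_bot.1 hx, mul_one, mul_inv_cancel]
          exact Subgroup.one_mem _
      · exact (hNC2 p h2).mono h
  let ι : Type := {T : Subgroup (F₀ ≃ₐ[K] F₀) //
    ∀ p : HeightOneSpectrum (𝓞 K), (2 : 𝓞 K) ∈ p.asIdeal → CyT (Dec K (wp p)) T}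
  have hCy : ∀ (a : ι) (u : HeightOneSpectrum (𝓞 K)), ((2 : 𝓞 K) ∈ u.asIdeal ∨ u ∈ Aux) →
      CyT (Dec K (wp u)) a.1 := by
    rintro a u (h2 | hu)
    · exact a.2 u h2
    · obtain ⟨g, hg⟩ := ((hAux u).1 hu).2.2.1
      rw [hg]
      refine ⟨g, Subgroup.mem_zpowers g, fun h hh => ?_⟩
      rw [← mem_powers_iff_mem_zpowers] at hh
      obtain ⟨i, hi⟩ := hh
      exact ⟨i, 1, a.1.one_mem, by rw [mul_one]; exact hi.symm⟩
  -- the sign of the tests
  have hR1 : ∀ (g : F₀ ≃ₐ[K] F₀), (g = 1 ∨ ∃ p : HeightOneSpectrum (𝓞 K),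
      (2 : 𝓞 K) ∈ p.asIdeal ∧ g ∈ Dec K (wp p)) → ∀ (s : ZMod 2) (τ : ι → Prop),
      (∀ (u : HeightOneSpectrum (𝓞 K)) (a : ι), (if g ∈ a.1 then (if s = 0 then 0 else η u) else
        if g ^ 2 ∈ a.1 then (if s = 0 then η u else 0) else η u) = if τ a then η u else 0) →
      Real η (fun s u (a : ι) => xsM η wp ho s u a.1) Aux (s, τ) := by
    intro g hg s τ hτ
    refine (hreal g hg).mono ?_
    rintro u ⟨hu, hD⟩
    refine ⟨hu, fun a => ?_⟩
    show xsM η wp ho s u a.1 = if τ a then η u else 0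
    rw [xsM_aux ho s (h26 u ((hAux u).1 hu).1) hD a.1]
    exact hτ u a
  have hs1 : (1 : ZMod 2) ≠ 0 := one_ne_zero
  have hon : Real η (fun s u (a : ι) => xsM η wp ho s u a.1) Aux (1, fun _ => True) := by
    refine hR1 1 (Or.inl rfl) 1 _ fun u a => ?_
    rw [if_pos a.1.one_mem, if_neg hs1, if_pos trivial]
  have hoff : Real η (fun s u (a : ι) => xsM η wp ho s u a.1) Aux (0, fun _ => False) := by
    refine hR1 1 (Or.inl rfl) 0 _ fun u a => ?_
    rw [if_pos a.1.one_mem, if_pos rfl, if_neg not_false]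
  -- the separation
  have hsep : ∀ u : HeightOneSpectrum (𝓞 K), (2 : 𝓞 K) ∈ u.asIdeal → ∀ a₀ : ι,
      ∃ T : List (ZMod 2 × (ι → Prop)),
        (∀ t ∈ T, Real η (fun s u (a : ι) => xsM η wp ho s u a.1) Aux t) ∧
        (∀ t ∈ T, ∀ a : ι, clS (Dec K (wp u)) a.1 = clS (Dec K (wp u)) a₀.1 → t.2 a) ∧
        ∀ a : ι, clS (Dec K (wp u)) a.1 ≠ clS (Dec K (wp u)) a₀.1 → (∃ t ∈ T, ¬ t.2 a) ∨
          (xsM η wp ho 0 u a.1 = 0 ∧ xsM η wp ho 0 u a₀.1 ≠ 0) := by
    intro u h2 a₀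
    have hDc := (hNC2 u h2).1
    by_cases hS : clS (Dec K (wp u)) a₀.1 = ∅
    · refine ⟨(Finset.univ.filter (fun g : F₀ ≃ₐ[K] F₀ => g ∈ Dec K (wp u))).toList.map
        (fun g => (1, fun a => g ∈ a.1 ∨ g ^ 2 ∉ a.1)), ?_, ?_, ?_⟩
      · intro t ht
        obtain ⟨g, hg, rfl⟩ := List.mem_map.1 ht
        have hgD : g ∈ Dec K (wp u) := (Finset.mem_filter.1 (Finset.mem_toList.1 hg)).2
        refine hR1 g (Or.inr ⟨u, h2, hgD⟩) 1 _ fun v a => ?_
        by_cases h3 : g ∈ a.1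
        · rw [if_pos h3, if_neg hs1, if_pos (Or.inl h3)]
        · rw [if_neg h3]
          by_cases h4 : g ^ 2 ∈ a.1
          · rw [if_pos h4, if_neg hs1, if_neg]
            rintro (h | h)
            · exact h3 h
            · exact h h4
          · rw [if_neg h4, if_pos (Or.inr h4)]
      · intro t ht a ha
        obtain ⟨g, hg, rfl⟩ := List.mem_map.1 ht
        have hgD : g ∈ Dec K (wp u) := (Finset.mem_filter.1 (Finset.mem_toList.1 hg)).2
        left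
        by_contra hga
        have h5 : (clS (Dec K (wp u)) a.1).Nonempty :=
          cl_nonempty hDc (a.2 u h2) fun h => hga (h hgD)
        rw [ha, hS] at h5
        exact Set.not_nonempty_empty h5
      · intro a ha
        left
        obtain ⟨g, hgD, h3, h4⟩ := cl_sep2 hp hS ha
        refine ⟨_, List.mem_map.2 ⟨g, Finset.mem_toList.2 (Finset.mem_filter.2
          ⟨Finset.mem_univ _, hgD⟩), rfl⟩, ?_⟩
        rintro (h | h)
        · exact h3 h
        · exact h h4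
    · have hne : (clS (Dec K (wp u)) a₀.1).Nonempty := Set.nonempty_iff_ne_empty.2 hS
      refine ⟨(Finset.univ.filter (fun g : F₀ ≃ₐ[K] F₀ =>
        g ∈ clS (Dec K (wp u)) a₀.1)).toList.map (fun g => (0, fun a => g ∉ a.1)), ?_, ?_, ?_⟩
      · intro t ht
        obtain ⟨g, hg, rfl⟩ := List.mem_map.1 ht
        have hgS : g ∈ clS (Dec K (wp u)) a₀.1 :=
          (Finset.mem_filter.1 (Finset.mem_toList.1 hg)).2
        refine hR1 g (Or.inr ⟨u, h2, hgS.1⟩) 0 _ fun v a => ?_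
        by_cases h3 : g ∈ a.1
        · rw [if_pos h3, if_pos rfl, if_neg (not_not.2 h3)]
        · rw [if_neg h3, if_pos h3, if_pos rfl, ite_self]
      · intro t ht a ha
        obtain ⟨g, hg, rfl⟩ := List.mem_map.1 ht
        have hgS : g ∈ clS (Dec K (wp u)) a₀.1 :=
          (Finset.mem_filter.1 (Finset.mem_toList.1 hg)).2
        rw [← ha] at hgS
        exact cl_notMem hgS
      · intro a ha
        left
        obtain ⟨g, hgS, h3⟩ := cl_sep1 hp hDc (a₀.2 u h2) (a.2 u h2) hne ha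
        exact ⟨_, List.mem_map.2 ⟨g, Finset.mem_toList.2 (Finset.mem_filter.2
          ⟨Finset.mem_univ _, hgS⟩), rfl⟩, fun h => h h3⟩
  -- the ramified places
  have hun_f : {v : HeightOneSpectrum (𝓞 K) | ¬ Un K F₀ v ∧ (2 : 𝓞 K) ∉ v.asIdeal}.Finite :=
    (un_finite (K := K) (L := F₀)).subset fun v hv => hv.1
  obtain ⟨R₁, hR₁⟩ : ∃ R₁ : Finset (HeightOneSpectrum (𝓞 K)), ∀ v, v ∈ R₁ ↔
      v ∈ R₀ ∨ (¬ Un K F₀ v ∧ (2 : 𝓞 K) ∉ v.asIdeal) := by
    refine ⟨R₀ ∪ hun_f.toFinset, fun v => ?_⟩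
    rw [Finset.mem_union, Set.Finite.mem_toFinset]
    rfl
  obtain ⟨C, s, W, n, E, A₀, B₀, hC, hRC, hZ, hW, hcls⟩ := exists_configG K hHF hη0
    (fun s u (a : ι) => xsM η wp ho s u a.1) (LpM η) Aux (fun u hu => ((hAux u).1 hu).1) R₁
    (fun v hv => by
      rcases (hR₁ v).1 hv with h | h
      · exact hR₀ v h
      · exact h.2)
    (fun u h2 a => xsM_ne hη0 hwp ho hp 0 h2 (hNC2 u h2).1 (a.2 u h2))
    (fun u h2 => dyadicG η 0 h2) (fun u hu s => auxG hηo ((hAux u).1 hu).1 s) hon hoff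
    (D := Set (F₀ ≃ₐ[K] F₀)) (fun u a => clS (Dec K (wp u)) a.1) (by
      intro u h2 a a' h
      show xsM η wp ho 0 u a.1 = xsM η wp ho 0 u a'.1
      unfold xsM
      rw [if_pos h2, if_pos h2]
      have h' : clS (Dec K (wp u)) a.1 = clS (Dec K (wp u)) a'.1 := h
      rw [h']) (fun _ => 0) hsep
  have hZ' : ∀ u ∈ C.Z, (2 : 𝓞 K) ∈ u.asIdeal ∨ u ∈ Aux := by
    intro u hu
    rcases hZ u hu with h | h
    · exact Or.inl h.1
    · exact Or.inr h.1
  have hunZ : ∀ u ∈ C.Z, (2 : 𝓞 K) ∉ u.asIdeal → Un K F₀ u := by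
    intro u hu h2
    exact ((hAux u).1 ((hZ' u hu).resolve_left h2)).2.1
  have hunS : ∀ V : HeightOneSpectrum (𝓞 F₀), dn K V ∉ C.S → ¬ Ram K V := by
    intro V hV
    apply un_not_ram
    by_contra h
    by_cases h2 : (2 : 𝓞 K) ∈ (dn K V).asIdeal
    · exact hV (Finset.mem_union_left _ (hC.mem2 _ h2))
    · exact hV (Finset.mem_union_right _ (hRC ((hR₁ _).2 (Or.inr ⟨h, h2⟩))))
  refine ⟨ι, C, fun u => LpM η (s u) u, fun u a => xsM η wp ho (s u) u a.1, W, n, E, A₀, B₀, hC,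
    fun v hv => hRC ((hR₁ v).2 (Or.inl hv)), hW, hcls, hunS, ?_, ?_, ?_⟩
  · -- elements of `K`
    rintro d hd ⟨ρ, hρ⟩
    have hd0 : (d : K) ≠ 0 := fun h => hd (RingOfIntegers.coe_eq_zero_iff.1 h)
    have hρ' : ρ ^ 2 = algebraMap K F₀ (d : K) := by rw [hρ, sq]
    have hρ0 : ρ ≠ 0 := by
      rintro rfl
      rw [mul_zero] at hρ
      exact hd0 ((map_eq_zero _).1 hρ)
    have hres : ∀ (V : HeightOneSpectrum (𝓞 F₀)), ∀ h ∈ Dec K V,
        AlgEquiv.restrictNormalHom F₀ h ∈ stR K ρ ↔ h ∈ stR K ρ := fun V h _ => by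
      rw [res_self]
    have hcy : ∀ u, CyT (Dec K (wp u)) (stR K ρ) := by
      intro u
      have h1 := cyT_of (F := F₀) (hres (wp u)) (stR_dcase hρ' (wp u))
      rwa [dn_self] at h1
    refine ⟨⟨stR K ρ, fun p _ => hcy p⟩, hd, fun v hv => ?_, fun u hu A B e he hL => ?_⟩
    · have h1 := H36AB.eo_of_sq (K := K) (M := K) (N := F₀) (V := wp v)
        (hunS (wp v) (by rw [hwp]; exact hv)) hd0 ⟨ρ, hρ⟩
      rwa [hwp] at h1
    · refine loc_all (F := F₀) (M := K) (N := F₀) hη2 hηo hwp ho hp (dn_self (wp u)) (fun h2 => ?_)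
        (hNC u (hZ' u hu)).1 (hcy u) hρ0 hρ' (stR_normal hρ') (fun h _ x => h.commutes x)
        (fun h hh => hh) (hres (wp u)) (stR_dcase hρ' (wp u)) he hL
      apply un_not_ram
      rw [hwp]
      exact hunZ u hu h2
  · -- the pairs
    intro L0 N _ _ _ _ _ _ _ _ _ _ _ _ r' hr' hgen hsp U hU z hz2 hmono M _ hM ρ hρ0 hρU hρz μ hμ
    have key : ∀ u ∈ C.Z, ∀ V : HeightOneSpectrum (𝓞 N), dn F₀ V = wp u →
        (∀ h ∈ Dec K V, AlgEquiv.restrictNormalHom F₀ h ∈ TU L0 F₀ U ↔ h ∈ U) ∧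
          DCase V U M ρ := by
      intro u hu V hV
      have hKV : dn K V = u := by
        rw [← H30CY.dn_tower (K := K) (N₀ := F₀) V, hV, hwp]
      have hspV : Sp K L0 (dn K V) := by
        rw [hKV]
        exact hsp u hu
      refine ⟨fun h hh => mem_TU hgen hspV hh, ?_⟩
      refine dcase_of hr' hz2 hmono (nc_up (F := F₀) hgen hspV ?_) (fun x => (hM _).1 x.2) hρU hρz
      rw [hV]
      exact hNC u (hZ' u hu)
    refine ⟨⟨TU L0 F₀ U, fun p h2 => ?_⟩, fun u hu A B e he hL => ?_⟩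
    · obtain ⟨V, hV⟩ := exists_above (L := N) (wp p)
      obtain ⟨h3, h4⟩ := key p (hC.mem2 p h2) V hV
      have h5 := cyT_of (F := F₀) h3 h4
      rwa [hV] at h5
    · obtain ⟨V, hV⟩ := exists_above (L := N) (wp u)
      obtain ⟨h3, h4⟩ := key u hu V hV
      have hKV : dn K V = u := by
        rw [← H30CY.dn_tower (K := K) (N₀ := F₀) V, hV, hwp]
      refine loc_all (F := F₀) (M := M) (N := N) hη2 hηo hwp ho hp hV (fun h2 => ?_)
        (hNC u (hZ' u hu)).1 ?_ hρ0 (hμ.symm) hU (fun h hh x => ((hM _).1 x.2).1 h hh) hρU h3 h4 he hL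
      · refine H36AB.unram_comp hgen ?_ ?_
        · apply split_unram
          rw [H30CY.dn_tower, hKV]
          exact hsp u hu
        · rw [hV]
          apply un_not_ram
          rw [hwp]
          exact hunZ u hu h2
      · have h5 := cyT_of (F := F₀) h3 h4
        rwa [hV] at h5
  · -- splitting
    intro N _ _ _ _ _ _ h2 v hv
    rcases hZ v hv with h | h
    · exact h2 v h.1
    · have hb := ((hAux v).1 h.1).2.2.2
      have h3 := dec_map (K := K) (N₀ := N) (N := F₀) (wp v)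
      have h4 : Dec K (dn N (wp v)) = ⊥ := by
        rw [← h3]
        rcases hb with hb | ⟨p, hp2, hb⟩
        · rw [hb, Subgroup.map_bot]
        · rw [eq_bot_iff]
          have h5 := dec_map (K := K) (N₀ := N) (N := F₀) (wp p)
          obtain ⟨j, hj⟩ := h2 p hp2
          have h6 : Dec K (dn N (wp p)) = ⊥ :=
            dec_split j hj (by rw [H30CY.dn_tower, hwp])
          rw [← h6, ← h5]
          exact Subgroup.map_mono hb
      have h7 := sp_of_bot h4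
      rwa [H30CY.dn_tower, hwp] at h7

end H30MG
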