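import Pool.Agent.H88.AB.Fn
import Pool.Agent.H76.AB.Cg
import Pool.Agent.H36.MG.Gt

/-!
Project MG (MP_78d38b_nt): the configuration, definitions (no row).
-/

set_option autoImplicit false
set_option linter.unusedSectionVars false
open scoped Classical

open WithZero NumberField IsDedekindDomain H38RT
open H38T1 (SC sc scu rep eo la si Pri OddP tp unif ka)
open H76PP H36MX H76MQ H76MX H73P2 H76AB H88AB

namespace H30MG

/-- The hypothesis on the decomposition groups above two: they are commutative and their cyclic subgroups are normal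
in the whole Galois group. -/
def HypH (K F : Type) [Field K] [NumberField K] [Field F] [NumberField F] [Algebra K F] : Prop :=
  ∀ w : HeightOneSpectrum (𝓞 F), (2 : 𝓞 K) ∈ (dn K w).asIdeal →
    (∀ x ∈ Dec K w, ∀ y ∈ Dec K w, x * y = y * x) ∧
    ∀ x ∈ Dec K w, ∀ y : F ≃ₐ[K] F, y * x * y⁻¹ ∈ Subgroup.zpowers x

/-- What is needed about the configuration: `x u i` are the classes. -/
structure CfgMG (K F₀ : Type) [Field K] [NumberField K] [Field F₀] [NumberField F₀] [Algebra K F₀]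
    (C : CfgX K) {ι : Type} (Lp : LPred K)
    (x : (u : HeightOneSpectrum (𝓞 K)) → ι → SC (Kv u)) : Prop where
  unr : ∀ V : HeightOneSpectrum (𝓞 F₀), dn K V ∉ C.S → ¬ Ram K V
  el : ∀ d : 𝓞 K, d ≠ 0 → IsSquare (algebraMap K F₀ (d : K)) →
    ∃ i, ElOk C Lp (fun u => x u i) d
  pair : ∀ (L0 N : Type) [Field L0] [NumberField L0] [Algebra K L0] [IsGalois K L0]
    [Field N] [NumberField N] [Algebra K N] [IsGalois K N] [Algebra L0 N] [IsScalarTower K L0 N]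
    [Algebra F₀ N] [IsScalarTower K F₀ N] (r : ℕ), Module.finrank K N = 2 ^ r →
    (∀ g : N ≃ₐ[K] N, (∀ x : L0, g (algebraMap L0 N x) = algebraMap L0 N x) →
      (∀ y : F₀, g (algebraMap F₀ N y) = algebraMap F₀ N y) → g = 1) →
    (∀ v ∈ C.Z, Sp K L0 v) →
    ∀ (U : Subgroup (N ≃ₐ[K] N)) [U.Normal] (z : N ≃ₐ[K] N), z ^ 2 ∈ U →
      (∀ x, x ∉ U → (∀ y, x * y * x⁻¹ * y⁻¹ ∈ U) → x ^ 2 ∈ U → x * z⁻¹ ∈ U) →
      ∀ (M : IntermediateField K N) [NumberField M],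
        (∀ x, x ∈ M ↔ (∀ u ∈ U, u x = x) ∧ z x = x) → ∀ ρ : N, ρ ≠ 0 → (∀ u ∈ U, u ρ = ρ) →
        z ρ = -ρ → ∀ μ : M, (μ : N) = ρ ^ 2 →
        ∃ i, ∀ u ∈ C.Z, ∀ (A B : 𝓞 K) (e : Fin 3 → Kv u),
          Spl (algebraMap K (Kv u) (A : K)) (algebraMap K (Kv u) (B : K)) e → Lp u A B e →
            LocCl u e μ (x u i)
  split : ∀ (N : Type) [Field N] [NumberField N] [Algebra K N] [Algebra N F₀]
    [IsScalarTower K N F₀] [IsGalois K N],
    (∀ v : HeightOneSpectrum (𝓞 K), (2 : 𝓞 K) ∈ v.asIdeal → Sp K N v) → ∀ v ∈ C.Z, Sp K N v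

/-- The statement of the configuration theorem (proved in `Cm.lean`). -/
def ExistsCfgMG : Prop :=
  ∀ (K F₀ : Type) [Field K] [NumberField K] [Field F₀] [NumberField F₀] [Algebra K F₀]
    [IsGalois K F₀] (r : ℕ), Module.finrank K F₀ = 2 ^ r → HypH K F₀ →
    (∀ v : HeightOneSpectrum (𝓞 K), HF (Kv v)) →
    ∀ R₀ : Finset (HeightOneSpectrum (𝓞 K)), (∀ v ∈ R₀, (2 : 𝓞 K) ∉ v.asIdeal) →
    ∃ (ι : Type) (C : CfgX K) (Lp : LPred K) (x : (u : HeightOneSpectrum (𝓞 K)) → ι → SC (Kv u))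
      (W : Submodule (ZMod 2) C.V) (n : Ideal (𝓞 K)) (E : ℕ) (A₀ B₀ : 𝓞 K),
      C.Ok ∧ R₀ ⊆ C.R ∧ TargetG C x W ∧ ClassG C Lp n E A₀ B₀ ∧ CfgMG K F₀ C Lp x

end H30MG
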