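import Pool.Agent.H30.MG.Cz
import Pool.Agent.H30.MG.Ck

/-!
Project MG (MP_78d38b_nt): the configuration theorem (no row).
-/

set_option autoImplicit false
set_option linter.unusedSectionVars false
open scoped Classical

open WithZero NumberField IsDedekindDomain H38RT
open H38T1 (SC sc scu rep rep_ne sc_rep sc_mul sc_eq_zero sc_surj eo la si Pri OddP tp unif ka)
open H76PP H36MX H76MQ H76MX H73P2 H76AB H88AB H36MG Pool.Agent.H42.PC

namespace H30MG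

section Xs

variable {K F : Type} [Field K] [NumberField K] [Field F] [NumberField F] [Algebra K F]

/-- The chosen element at `u`. -/
noncomputable def mS {u : HeightOneSpectrum (𝓞 K)} {w : HeightOneSpectrum (𝓞 F)}
    (ho : Pool.Agent.H10.Over u w) (S : Set (F ≃ₐ[K] F)) : Kv u :=
  if h : ∃ m : Kv u, IsM ho S m then h.choose else 1

theorem mS_spec {u : HeightOneSpectrum (𝓞 K)} {w : HeightOneSpectrum (𝓞 F)}
    {ho : Pool.Agent.H10.Over u w} {S : Set (F ≃ₐ[K] F)} (h : ∃ m : Kv u, IsM ho S m) :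
    IsM ho S (mS ho S) := by
  unfold mS
  rw [dif_pos h]
  exact h.choose_spec

/-- The classes. -/
noncomputable def xsM (η : (u : HeightOneSpectrum (𝓞 K)) → SC (Kv u))
    (wp : HeightOneSpectrum (𝓞 K) → HeightOneSpectrum (𝓞 F))
    (ho : ∀ u, Pool.Agent.H10.Over u (wp u)) (s : ZMod 2) (u : HeightOneSpectrum (𝓞 K))
    (T : Subgroup (F ≃ₐ[K] F)) : SC (Kv u) :=
  if (2 : 𝓞 K) ∈ u.asIdeal then
    (if clS (Dec K (wp u)) T = ∅ then η u else sc (mS (ho u) (clS (Dec K (wp u)) T)))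
  else if Dec K (wp u) ≤ T then (if s = 0 then 0 else η u)
  else if ∀ x ∈ Dec K (wp u), x ^ 2 ∈ T then (if s = 0 then η u else 0) else η u

variable [IsGalois K F]

theorem exists_isM' {u : HeightOneSpectrum (𝓞 K)} {w : HeightOneSpectrum (𝓞 F)} (hu : dn K w = u)
    (ho : Pool.Agent.H10.Over u w) (hp : IsPGroup 2 (F ≃ₐ[K] F)) {T : Subgroup (F ≃ₐ[K] F)}
    (hD : ∀ x ∈ Dec K w, ∀ y ∈ Dec K w, x * y = y * x) (hcyc : CyT (Dec K w) T)
    (hDT : ¬ Dec K w ≤ T) : ∃ m : Kv u, IsM ho (clS (Dec K w) T) m := by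
  obtain ⟨t, ht⟩ := exists_anti hp hD hcyc hDT
  obtain ⟨m, hm⟩ := exists_isM hu ho ht
  exact ⟨m, t, ht, hm⟩

theorem xsM_ne {η : (u : HeightOneSpectrum (𝓞 K)) → SC (Kv u)} (hη : ∀ u, η u ≠ 0)
    {wp : HeightOneSpectrum (𝓞 K) → HeightOneSpectrum (𝓞 F)} (hwp : ∀ u, dn K (wp u) = u)
    (ho : ∀ u, Pool.Agent.H10.Over u (wp u)) (hp : IsPGroup 2 (F ≃ₐ[K] F)) (s : ZMod 2)
    {u : HeightOneSpectrum (𝓞 K)} (h2 : (2 : 𝓞 K) ∈ u.asIdeal) {T : Subgroup (F ≃ₐ[K] F)}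
    (hD : ∀ x ∈ Dec K (wp u), ∀ y ∈ Dec K (wp u), x * y = y * x)
    (hcyc : CyT (Dec K (wp u)) T) : xsM η wp ho s u T ≠ 0 := by
  unfold xsM
  rw [if_pos h2]
  by_cases hS : clS (Dec K (wp u)) T = ∅
  · rw [if_pos hS]
    exact hη u
  · rw [if_neg hS]
    have hDT : ¬ Dec K (wp u) ≤ T := fun h => hS (cl_empty h)
    have h3 := mS_spec (exists_isM' (hwp u) (ho u) hp hD hcyc hDT)
    obtain ⟨g, hg⟩ := cl_nonempty hD hcyc hDT
    obtain ⟨h4, h5⟩ := isM_ns (hwp u) h3 hg.1 hg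
    intro h6
    exact h5 ((sc_eq_zero h4).1 h6)

/-- The local classes: all places of the configuration together. -/
theorem loc_all {M N : Type} [Field M] [NumberField M] [Field N] [NumberField N] [Algebra K M]
    [Algebra K N] [Algebra M N] [Algebra F N] [IsScalarTower K M N] [IsScalarTower K F N]
    [IsGalois K N] {η : (u : HeightOneSpectrum (𝓞 K)) → SC (Kv u)} (hη2 : EtaTwo η)
    (hηo : EtaOdd η) {wp : HeightOneSpectrum (𝓞 K) → HeightOneSpectrum (𝓞 F)}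
    (hwp : ∀ u, dn K (wp u) = u) (ho : ∀ u, Pool.Agent.H10.Over u (wp u))
    (hp : IsPGroup 2 (F ≃ₐ[K] F)) {s : ZMod 2} {u : HeightOneSpectrum (𝓞 K)}
    {W : HeightOneSpectrum (𝓞 N)} (hW : dn F W = wp u) (hunr : (2 : 𝓞 K) ∉ u.asIdeal → ¬ Ram K W)
    (hD : ∀ x ∈ Dec K (wp u), ∀ y ∈ Dec K (wp u), x * y = y * x) {T : Subgroup (F ≃ₐ[K] F)}
    (hcyc : CyT (Dec K (wp u)) T) {μ : M} {ρ : N} (hρ0 : ρ ≠ 0) (hρ : ρ ^ 2 = algebraMap M N μ)
    {U : Subgroup (N ≃ₐ[K] N)} (hU : U.Normal)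
    (hUM : ∀ h ∈ U, ∀ x : M, h (algebraMap M N x) = algebraMap M N x) (hUρ : ∀ h ∈ U, h ρ = ρ)
    (hT : ∀ h ∈ Dec K W, AlgEquiv.restrictNormalHom F h ∈ T ↔ h ∈ U) (hcase : DCase W U M ρ)
    {A B : 𝓞 K} {e : Fin 3 → Kv u}
    (hs : Spl (algebraMap K (Kv u) (A : K)) (algebraMap K (Kv u) (B : K)) e)
    (hL : LpM η s u A B e) : LocCl u e μ (xsM η wp ho s u T) := by
  unfold xsM
  by_cases h2 : (2 : 𝓞 K) ∈ u.asIdeal
  · rw [if_pos h2]
    obtain ⟨g0, hg0, hη'⟩ := hη2 u h2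
    obtain ⟨hδ, h1, h16⟩ := hL.1 h2
    have h3 := loc_two hW (hwp u) (ho u) (two_lt_of h2) hs hδ h1 h16 hρ0 hρ hU hUM hUρ hT hcase hg0
      (m := mS (ho u) (clS (Dec K (wp u)) T))
      (fun hDT => mS_spec (exists_isM' (hwp u) (ho u) hp hD hcyc hDT))
    by_cases hDT : Dec K (wp u) ≤ T
    · rw [if_pos hDT] at h3
      rw [if_pos (cl_empty hDT), hη']
      exact h3
    · rw [if_neg hDT] at h3
      rw [if_neg (cl_nonempty hD hcyc hDT).ne_empty]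
      exact h3
  · rw [if_neg h2]
    obtain ⟨h1, hτ, hsig⟩ := hL.2 h2
    exact loc_odd hW (hwp u) hp hD hcyc (hunr h2) (H30MQ.oddP_of h2) hs h1 hτ
      (eta_class hηo h2) hsig hρ0 hρ hU hUM hUρ hT hcase

/-- The classes at an auxiliary place. -/
theorem xsM_aux {η : (u : HeightOneSpectrum (𝓞 K)) → SC (Kv u)}
    {wp : HeightOneSpectrum (𝓞 K) → HeightOneSpectrum (𝓞 F)}
    (ho : ∀ u, Pool.Agent.H10.Over u (wp u)) (s : ZMod 2) {u : HeightOneSpectrum (𝓞 K)}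
    (h2 : (2 : 𝓞 K) ∉ u.asIdeal) {g : F ≃ₐ[K] F} (hg : Dec K (wp u) = Subgroup.zpowers g)
    (T : Subgroup (F ≃ₐ[K] F)) : xsM η wp ho s u T = if g ∈ T then (if s = 0 then 0 else η u) else
      if g ^ 2 ∈ T then (if s = 0 then η u else 0) else η u := by
  unfold xsM
  rw [if_neg h2, hg]
  have h3 : (Subgroup.zpowers g ≤ T) = (g ∈ T) := propext Subgroup.zpowers_le
  have h4 : (∀ x ∈ Subgroup.zpowers g, x ^ 2 ∈ T) = (g ^ 2 ∈ T) := by
    refine propext ⟨fun h => h g (Subgroup.mem_zpowers g), fun h x hx => ?_⟩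
    obtain ⟨k, rfl⟩ := Subgroup.mem_zpowers_iff.1 hx
    rw [← zpow_natCast, ← zpow_mul, mul_comm, zpow_mul, zpow_natCast]
    exact T.zpow_mem h k
  simp only [h3, h4]

end Xs

end H30MG
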