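import Pool.Agent.H30.MG.Cm

/-!
Project MG (MP_78d38b_nt): Galois theory of the layers (no row).
-/

set_option autoImplicit false
set_option linter.unusedSectionVars false
open scoped Classical

open WithZero NumberField IsDedekindDomain H38RT
open H38T1 (SC sc scu rep rep_ne sc_rep sc_mul sc_eq_zero sc_surj eo la si Pri OddP tp unif ka)
open H76PP H36MX H76MQ H76MX H73P2 H76AB H88AB H36MG H36CY Pool.Agent.H42.PC

namespace H30MG

section Split

variable {K N : Type} [Field K] [NumberField K] [Field N] [NumberField N] [Algebra K N] [IsGalois K N]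

/-- A place with trivial decomposition group splits completely. -/
theorem sp_of_bot {W : HeightOneSpectrum (𝓞 N)} (h : Dec K W = ⊥) : Sp K N (dn K W) := by
  have hsurj : ∀ y : W.adicCompletion N, ∃ x : (dn K W).adicCompletion K,
      (over_dn (K := K) W).map x = y := by
    intro y
    refine fixed_range fun g hg => ?_
    rw [h, Subgroup.mem_bot] at hg
    rw [hg]
    exact ac_one W y
  obtain ⟨e, he⟩ : ∃ e : (dn K W).adicCompletion K ≃+* W.adicCompletion N,
      ∀ x, e x = (over_dn (K := K) W).map x :=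
    ⟨RingEquiv.ofBijective (over_dn (K := K) W).map ⟨RingHom.injective _, hsurj⟩, fun _ => rfl⟩
  refine ⟨(e.symm : W.adicCompletion N →+* (dn K W).adicCompletion K).comp
    (algebraMap N (W.adicCompletion N)), fun x => ?_⟩
  apply e.injective
  have h5 : ∀ y : W.adicCompletion N,
      e ((e.symm : W.adicCompletion N →+* (dn K W).adicCompletion K) y) = y := fun y =>
    e.apply_symm_apply y
  rw [RingHom.comp_apply, h5, he, Pool.Agent.H10.Over.map_algebraMap]

theorem un_not_ram {V : HeightOneSpectrum (𝓞 N)} (h : Un K N (dn K V)) : ¬ Ram K V := by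
  rw [H36AB.inertia_iff, eq_bot_iff]
  intro g hg
  rw [Subgroup.mem_bot]
  exact h V ⟨rfl⟩ g fun x => hg x

end Split

section Layer

variable {K F L N : Type} [Field K] [NumberField K] [Field F] [NumberField F] [Field L]
  [NumberField L] [Field N] [NumberField N] [Algebra K F] [Algebra K L] [Algebra K N] [Algebra L N]
  [Algebra F N] [IsScalarTower K L N] [IsScalarTower K F N] [IsGalois K F] [IsGalois K L]
  [IsGalois K N]

/-- The group which belongs to `U`. -/
noncomputable def TU (L : Type) [Field L] [NumberField L] [Algebra K L] [Algebra L N] [IsScalarTower K L N]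
    [IsGalois K L] (F : Type) [Field F] [NumberField F] [Algebra K F] [Algebra F N]
    [IsScalarTower K F N] [IsGalois K F] (U : Subgroup (N ≃ₐ[K] N)) : Subgroup (F ≃ₐ[K] F) :=
  (U ⊓ (AlgEquiv.restrictNormalHom (F := K) (K₁ := N) L).ker).map (AlgEquiv.restrictNormalHom F)

theorem mem_kerL {h : N ≃ₐ[K] N} : h ∈ (AlgEquiv.restrictNormalHom (F := K) (K₁ := N) L).ker ↔
    ∀ x : L, h (algebraMap L N x) = algebraMap L N x := by
  rw [MonoidHom.mem_ker]
  constructor
  · intro h1 x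
    rw [← res_apply (F := L), h1]
    rfl
  · intro h1
    apply AlgEquiv.ext
    intro x
    apply (algebraMap L N).injective
    rw [res_apply, h1]
    rfl

theorem eq_of_res (hgen : ∀ g : N ≃ₐ[K] N, (∀ x : L, g (algebraMap L N x) = algebraMap L N x) →
      (∀ y : F, g (algebraMap F N y) = algebraMap F N y) → g = 1) {g h : N ≃ₐ[K] N}
    (hg : ∀ x : L, g (algebraMap L N x) = algebraMap L N x)
    (hh : ∀ x : L, h (algebraMap L N x) = algebraMap L N x)
    (hF : AlgEquiv.restrictNormalHom F g = AlgEquiv.restrictNormalHom F h) : g = h := by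
  have h1 : ∀ x : L, g⁻¹ (algebraMap L N x) = algebraMap L N x := by
    intro x
    have h2 : g⁻¹ (g (algebraMap L N x)) = algebraMap L N x := g.symm_apply_apply _
    rwa [hg] at h2
  have h3 := hgen (g⁻¹ * h) (fun x => by rw [AlgEquiv.mul_apply, hh, h1]) (fun y => by
    rw [← res_apply, map_mul, map_inv, hF, inv_mul_cancel]
    rfl)
  exact inv_mul_eq_one.1 h3

variable {U : Subgroup (N ≃ₐ[K] N)} {W : HeightOneSpectrum (𝓞 N)}

/-- The decomposition group is trivial on `L`. -/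
theorem dec_L (hsp : Sp K L (dn K W)) {h : N ≃ₐ[K] N} (hh : h ∈ Dec K W) (x : L) :
    h (algebraMap L N x) = algebraMap L N x := by
  obtain ⟨ι, hι⟩ := hsp
  exact dec_triv ι hι hh x

theorem mem_TU (hgen : ∀ g : N ≃ₐ[K] N, (∀ x : L, g (algebraMap L N x) = algebraMap L N x) →
      (∀ y : F, g (algebraMap F N y) = algebraMap F N y) → g = 1) (hsp : Sp K L (dn K W))
    {h : N ≃ₐ[K] N} (hh : h ∈ Dec K W) :
    AlgEquiv.restrictNormalHom F h ∈ TU L F U ↔ h ∈ U := by
  unfold TU
  rw [Subgroup.mem_map]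
  constructor
  · rintro ⟨g, ⟨hgU, hgL⟩, hgh⟩
    have h1 := eq_of_res hgen (mem_kerL.1 hgL) (dec_L hsp hh) hgh
    rw [← h1]
    exact hgU
  · intro hU
    exact ⟨h, ⟨hU, mem_kerL.2 (dec_L hsp hh)⟩, rfl⟩

/-- The decomposition group in `N` has the same property. -/
theorem nc_up (hgen : ∀ g : N ≃ₐ[K] N, (∀ x : L, g (algebraMap L N x) = algebraMap L N x) →
      (∀ y : F, g (algebraMap F N y) = algebraMap F N y) → g = 1) (hsp : Sp K L (dn K W))
    (hNC : NC (Dec K (dn F W))) : NC (Dec K W) := by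
  have hres : ∀ h ∈ Dec K W, AlgEquiv.restrictNormalHom F h ∈ Dec K (dn F W) := by
    intro h hh
    rw [← dec_map (N₀ := F) W]
    exact ⟨h, hh, rfl⟩
  refine ⟨fun x hx y hy => ?_, fun x hx y => ?_⟩
  · refine eq_of_res hgen (dec_L hsp ((Dec K W).mul_mem hx hy))
      (dec_L hsp ((Dec K W).mul_mem hy hx)) ?_
    rw [map_mul, map_mul]
    exact hNC.1 _ (hres x hx) _ (hres y hy)
  · obtain ⟨k, hk⟩ := Subgroup.mem_zpowers_iff.1
      (hNC.2 _ (hres x hx) (AlgEquiv.restrictNormalHom F y))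
    refine Subgroup.mem_zpowers_iff.2 ⟨k, ?_⟩
    refine eq_of_res hgen (dec_L hsp ((Dec K W).zpow_mem hx k)) ?_ ?_
    · rw [← mem_kerL]
      exact (MonoidHom.normal_ker _).conj_mem _ (mem_kerL.2 (dec_L hsp hx)) y
    · rw [map_zpow, hk, map_mul, map_mul, map_inv]

/-- The decomposition of the pair. -/
theorem dcase_of {r : ℕ} (hr : Module.finrank K N = 2 ^ r) [U.Normal] {z : N ≃ₐ[K] N}
    (hz2 : z ^ 2 ∈ U)
    (hmono : ∀ x, x ∉ U → (∀ y, x * y * x⁻¹ * y⁻¹ ∈ U) → x ^ 2 ∈ U → x * z⁻¹ ∈ U)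
    (hNC : NC (Dec K W)) {M : Type} [Field M] [Algebra M N]
    (hM : ∀ x : M, (∀ u ∈ U, u (algebraMap M N x) = algebraMap M N x) ∧
      z (algebraMap M N x) = algebraMap M N x) {ρ : N} (hρU : ∀ u ∈ U, u ρ = ρ)
    (hρz : z ρ = -ρ) : DCase W U M ρ := by
  have hp : IsPGroup 2 (N ≃ₐ[K] N) := IsPGroup.of_card (n := r) (by
    rw [IsGalois.card_aut_eq_finrank, hr])
  have hfin : Finite (N ≃ₐ[K] N) := inferInstance
  have hU : U.Normal := inferInstance
  rcases cyc_or hp U hmono (Dec K W) hNC.1 hNC.2 with h | ⟨g, hg, r', hgen, hgz⟩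
  · exact Or.inl h
  · refine Or.inr ⟨g, hg, r', hgen, fun x => ?_, ?_, ?_⟩
    · have h1 : g ^ 2 ^ r' = (g ^ 2 ^ r' * z⁻¹) * z := by group
      rw [h1, AlgEquiv.mul_apply, (hM x).2, (hM x).1 _ hgz]
    · have h1 : g ^ 2 ^ r' = (g ^ 2 ^ r' * z⁻¹) * z := by group
      rw [h1, AlgEquiv.mul_apply, hρz, map_neg, hρU _ hgz]
    · obtain ⟨y, hy⟩ : ∃ y, y = g ^ 2 ^ r' * z⁻¹ := ⟨_, rfl⟩
      have h1 : g ^ 2 ^ r' = y * z := by rw [hy]; group
      rw [h1]
      rw [← hy] at hgz
      have h2 : (y * z) ^ 2 = y * (z * y * z⁻¹) * z ^ 2 := by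
        rw [sq, sq]
        group
      rw [h2]
      exact U.mul_mem (U.mul_mem hgz (hU.conj_mem _ hgz z)) hz2

/-- The group `T` is admissible at `W`. -/
theorem cyT_of {M : Type} [Field M] [Algebra M N] {ρ : N}
    {T : Subgroup (F ≃ₐ[K] F)} (hT : ∀ h ∈ Dec K W, AlgEquiv.restrictNormalHom F h ∈ T ↔ h ∈ U)
    (h : DCase W U M ρ) : CyT (Dec K (dn F W)) T := by
  rcases h with h | ⟨g, hg, -, hgen, -⟩
  · refine ⟨1, (Dec K (dn F W)).one_mem, fun x hx => ⟨0, x, dec_le_T hT h hx, by group⟩⟩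
  · refine ⟨AlgEquiv.restrictNormalHom F g, ?_, fun x hx => ?_⟩
    · rw [← dec_map (N₀ := F) W]
      exact ⟨g, hg, rfl⟩
    · rw [← dec_map (N₀ := F) W] at hx
      obtain ⟨x', hx', rfl⟩ := hx
      obtain ⟨i, c, hc, rfl⟩ := hgen x' hx'
      have hcD : c ∈ Dec K W := by
        have h2 := (Dec K W).mul_mem ((Dec K W).inv_mem ((Dec K W).pow_mem hg i)) hx'
        rwa [inv_mul_cancel_left] at h2
      refine ⟨i, AlgEquiv.restrictNormalHom F c, (hT c hcD).2 hc, ?_⟩
      rw [map_mul, map_pow]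

end Layer

end H30MG
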