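import Pool.Agent.H30.MG.Lq
import Pool.Agent.H76.AB.Fr
import Pool.Agent.H36.MG.Gt
import Pool.Agent.H36.AB.Ur

/-!
Project MG (MP_78d38b_nt): the local classes of a pair at the places of the configuration (no row).
-/

set_option autoImplicit false
set_option linter.unusedSectionVars false
open scoped Classical

open WithZero NumberField IsDedekindDomain H76PP H36CY H36MX H38RT H36MG H73P2 H76AB
open H38T1 (SC sc scu rep rep_ne sc_rep sc_mul sc_eq_zero sc_surj OddP eo la)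
open H76MX (Kv)

namespace H30MG

section Grp

variable {G : Type*} [Group G]

/-- Commutative, and the cyclic subgroups are normal. -/
def NC (D : Subgroup G) : Prop :=
  (∀ x ∈ D, ∀ y ∈ D, x * y = y * x) ∧ ∀ x ∈ D, ∀ y : G, y * x * y⁻¹ ∈ Subgroup.zpowers x

theorem NC.mono {D D' : Subgroup G} (h : NC D) (hle : D' ≤ D) : NC D' :=
  ⟨fun x hx y hy => h.1 x (hle hx) y (hle hy), fun x hx y => h.2 x (hle hx) y⟩

theorem NC.normal {D : Subgroup G} (h : NC D) : D.Normal := by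
  refine ⟨fun x hx y => ?_⟩
  exact (Subgroup.zpowers_le.2 hx) (h.2 x hx y)

/-- `D` is cyclic modulo `T`. -/
def CyT (D T : Subgroup G) : Prop := ∃ g ∈ D, ∀ h ∈ D, ∃ i : ℕ, ∃ c ∈ T, h = g ^ i * c

/-- The elements of `D` which are squares modulo `T`. -/
def sqs (D T : Subgroup G) (hD : ∀ x ∈ D, ∀ y ∈ D, x * y = y * x) : Subgroup G where
  carrier := {h | h ∈ D ∧ ∃ x ∈ D, h * (x ^ 2)⁻¹ ∈ T}
  mul_mem' := by
    rintro a b ⟨ha, x, hx, hxa⟩ ⟨hb, y, hy, hyb⟩
    refine ⟨D.mul_mem ha hb, x * y, D.mul_mem hx hy, ?_⟩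
    have c1 : Commute x y := hD x hx y hy
    have c2 : Commute b (x ^ 2)⁻¹ := hD _ hb _ (D.inv_mem (D.pow_mem hx 2))
    have c3 : Commute (x ^ 2)⁻¹ (y ^ 2)⁻¹ :=
      hD _ (D.inv_mem (D.pow_mem hx 2)) _ (D.inv_mem (D.pow_mem hy 2))
    have e : a * b * ((x * y) ^ 2)⁻¹ = (a * (x ^ 2)⁻¹) * (b * (y ^ 2)⁻¹) := by
      rw [c1.mul_pow, mul_inv_rev, ← c3.eq, mul_assoc, mul_assoc, ← mul_assoc b, c2.eq, mul_assoc]
    rw [e]
    exact T.mul_mem hxa hyb
  one_mem' := ⟨D.one_mem, 1, D.one_mem, by simp⟩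
  inv_mem' := by
    rintro a ⟨ha, x, hx, hxa⟩
    refine ⟨D.inv_mem ha, x⁻¹, D.inv_mem hx, ?_⟩
    have c2 : Commute a (x ^ 2)⁻¹ := hD _ ha _ (D.inv_mem (D.pow_mem hx 2))
    have e : a⁻¹ * ((x⁻¹) ^ 2)⁻¹ = (a * (x ^ 2)⁻¹)⁻¹ := by
      rw [c2.mul_inv, inv_pow]
    rw [e]
    exact T.inv_mem hxa

end Grp

section Anti

variable {K F : Type} [Field K] [NumberField K] [Field F] [NumberField F] [Algebra K F]

/-- The group `D` acts on `t` by the sign which is `-1` on `S`. -/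
def Anti (D : Subgroup (F ≃ₐ[K] F)) (S : Set (F ≃ₐ[K] F)) (t : F) : Prop :=
  t ≠ 0 ∧ (∀ h ∈ D, h ∈ S → h t = -t) ∧ ∀ h ∈ D, h ∉ S → h t = t

theorem exists_anti [IsGalois K F] (hp : IsPGroup 2 (F ≃ₐ[K] F)) {D T : Subgroup (F ≃ₐ[K] F)}
    (hD : ∀ x ∈ D, ∀ y ∈ D, x * y = y * x) (hcyc : CyT D T) (hDT : ¬ D ≤ T) :
    ∃ t : F, Anti D (clS D T) t := by
  have hfd : FiniteDimensional K F := Module.Finite.of_restrictScalars_finite ℚ K F
  obtain ⟨g, hg⟩ := cl_nonempty hD hcyc hDT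
  have hg' := (mem_cl hp hD hcyc).1 hg
  have hmem : ∀ h, h ∈ sqs D T hD ↔ h ∈ D ∧ ∃ x ∈ D, h * (x ^ 2)⁻¹ ∈ T := fun _ => Iff.rfl
  have hgH : g ∉ sqs D T hD := by
    rintro ⟨-, x, hx, hxT⟩
    exact hg'.2 x hx hxT
  have hg2 : g ^ 2 ∈ sqs D T hD :=
    (hmem _).2 ⟨D.pow_mem hg.1 2, g, hg.1, by rw [mul_inv_cancel]; exact T.one_mem⟩
  obtain ⟨t, ht0, htH, htg⟩ := ex_anti (sqs D T hD) hgH hg2 (by
    intro h hh
    have h1 : h * g = g * h := hD h hh.1 g hg.1
    have h2 : g⁻¹ * h * g = h := by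
      rw [mul_assoc, h1, ← mul_assoc, inv_mul_cancel, one_mul]
    rw [h2]
    exact hh)
  refine ⟨t, ht0, fun h hh hS => ?_, fun h hh hS => ?_⟩
  · obtain ⟨i, hi⟩ := hg.2.2 h hh
    have hi' : h * (g ^ i)⁻¹ ∈ T := by
      have h1 := T.inv_mem hi
      rwa [mul_inv_rev, inv_inv] at h1
    rcases Nat.even_or_odd' i with ⟨k, rfl | rfl⟩
    · exfalso
      apply ((mem_cl hp hD hcyc).1 hS).2 (g ^ k) (D.pow_mem hg.1 k)
      rw [← pow_mul, mul_comm k 2]
      exact hi'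
    · have h2 : h * g⁻¹ ∈ sqs D T hD := by
        refine (hmem _).2 ⟨D.mul_mem hh (D.inv_mem hg.1), g ^ k, D.pow_mem hg.1 k, ?_⟩
        have e : h * g⁻¹ * ((g ^ k) ^ 2)⁻¹ = h * (g ^ (2 * k + 1))⁻¹ := by
          rw [← pow_mul, mul_comm k 2, pow_succ, mul_inv_rev, mul_assoc]
        rw [e]
        exact hi'
      have h3 : h t = (h * g⁻¹) (g t) := by
        have h4 : h = h * g⁻¹ * g := by group
        exact congrArg (fun σ : F ≃ₐ[K] F => σ t) h4
      rw [h3, htg, map_neg, htH _ h2]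
  · apply htH
    by_contra hcon
    apply hS
    refine (mem_cl hp hD hcyc).2 ⟨hh, fun x hx hxT => hcon ?_⟩
    exact (hmem _).2 ⟨hh, x, hx, hxT⟩

/-- `m` is the square of an element of `F` on which the decomposition group acts by the sign of `S`. -/
def IsM {u : HeightOneSpectrum (𝓞 K)} {w₀ : HeightOneSpectrum (𝓞 F)}
    (ho : Pool.Agent.H10.Over u w₀) (S : Set (F ≃ₐ[K] F)) (m : u.adicCompletion K) : Prop :=
  ∃ t : F, Anti (Dec K w₀) S t ∧ ho.map m = algebraMap F (w₀.adicCompletion F) t ^ 2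

theorem exists_isM [IsGalois K F] {u : HeightOneSpectrum (𝓞 K)} {w₀ : HeightOneSpectrum (𝓞 F)}
    (hu : dn K w₀ = u) (ho : Pool.Agent.H10.Over u w₀) {S : Set (F ≃ₐ[K] F)} {t : F}
    (ht : Anti (Dec K w₀) S t) : ∃ m : u.adicCompletion K,
      ho.map m = algebraMap F (w₀.adicCompletion F) t ^ 2 := by
  subst hu
  refine fixed_range (K := K) fun g hg => ?_
  rw [map_pow, ac_coe hg]
  by_cases hS : g ∈ S
  · rw [ht.2.1 g hg hS, map_neg, neg_sq]
  · rw [ht.2.2 g hg hS]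

/-- An element is not a square of the completion of `K` if some element of the decomposition group changes
the sign of its square root. -/
theorem nsq_of {w₀ : HeightOneSpectrum (𝓞 F)} {t : F} (ht0 : t ≠ 0) {g : F ≃ₐ[K] F}
    (hg : g ∈ Dec K w₀) (hgt : g t = -t) {m : (dn K w₀).adicCompletion K}
    (hm : (over_dn (K := K) w₀).map m = algebraMap F (w₀.adicCompletion F) t ^ 2) :
    ¬ IsSquare m := by
  rintro ⟨c, hc⟩
  have _ := char_zero w₀
  have h1 : (algebraMap F (w₀.adicCompletion F) t) ^ 2 = (over_dn (K := K) w₀).map c ^ 2 := by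
    rw [← hm, hc, map_mul, sq]
  have hfix : ac w₀ g ((over_dn (K := K) w₀).map c) = (over_dn (K := K) w₀).map c :=
    ac_fix (M := K) hg (fun x => g.commutes x) c
  have h2 : ac w₀ g (algebraMap F (w₀.adicCompletion F) t) =
      algebraMap F (w₀.adicCompletion F) t := by
    rcases sq_eq_sq_iff_eq_or_eq_neg.1 h1 with h | h
    · rw [h, hfix]
    · rw [h, map_neg, hfix]
  rw [ac_coe hg, hgt, map_neg] at h2
  have h3 : algebraMap F (w₀.adicCompletion F) t ≠ 0 := (map_ne_zero _).2 ht0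
  have h4 : 2 * algebraMap F (w₀.adicCompletion F) t = 0 := by linear_combination -h2
  exact (mul_ne_zero two_ne_zero h3) h4

theorem isM_ns {u : HeightOneSpectrum (𝓞 K)} {w₀ : HeightOneSpectrum (𝓞 F)}
    (hu : dn K w₀ = u) {ho : Pool.Agent.H10.Over u w₀} {S : Set (F ≃ₐ[K] F)}
    {m : u.adicCompletion K} (hm : IsM ho S m) {g : F ≃ₐ[K] F} (hg : g ∈ Dec K w₀) (hgS : g ∈ S) :
    m ≠ 0 ∧ ¬ IsSquare m := by
  subst hu
  obtain ⟨t, ht, hmt⟩ := hm
  have h1 := nsq_of ht.1 hg (ht.2.1 g hg hgS) hmt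
  refine ⟨?_, h1⟩
  rintro rfl
  exact h1 (IsSquare.zero)

end Anti

section Val

variable {K N : Type} [Field K] [NumberField K] [Field N] [NumberField N] [Algebra K N]

/-- The valuations at an unramified place. -/
theorem val_unr {W : HeightOneSpectrum (𝓞 N)} (h : ¬ Ram K W) (x : (dn K W).adicCompletion K) :
    Valued.v ((over_dn (K := K) W).map x) = Valued.v x := by
  by_cases hx : x = 0
  · rw [hx, map_zero, map_zero, map_zero]
  obtain ⟨y, hy⟩ := near_coe (dn K W) x hx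
  have h1 : Valued.v (algebraMap K ((dn K W).adicCompletion K) y) = Valued.v x :=
    Valuation.map_eq_of_sub_lt _ hy
  have h2 : Valued.v ((over_dn (K := K) W).map (algebraMap K ((dn K W).adicCompletion K) y)) =
      Valued.v ((over_dn (K := K) W).map x) := by
    apply Valuation.map_eq_of_sub_lt
    rw [← map_sub]
    exact map_lt _ hy
  rw [← h2, ← h1, Pool.Agent.H10.Over.map_algebraMap, val_coe, val_coe]
  have hy0 : y ≠ 0 := by
    rintro rfl
    rw [map_zero, map_zero] at h1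
    exact hx ((Valuation.zero_iff _).1 h1.symm)
  have h3 := unram_ord h hy0
  unfold ord at h3
  have h4 : W.valuation N (algebraMap K N y) ≠ 0 :=
    (Valuation.ne_zero_iff _).2 ((map_ne_zero _).2 hy0)
  have h5 : (dn K W).valuation K y ≠ 0 := (Valuation.ne_zero_iff _).2 hy0
  rw [← exp_log h4, ← exp_log h5]
  congr 1
  linarith

end Val

end H30MG
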