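import Pool.Agent.H30.MG.Cx

/-!
Project MG (MP_78d38b_nt): the local classes of a pair at the places of the configuration, second part (no row).
-/

set_option autoImplicit false
set_option linter.unusedSectionVars false
open scoped Classical

open WithZero NumberField IsDedekindDomain H76PP H36CY H36MX H38RT H36MG H73P2 H76AB
open H38T1 (SC sc scu rep rep_ne sc_rep sc_mul sc_eq_zero sc_surj OddP eo la)
open H76MX (Kv)

namespace H30MG

variable {K F M N : Type} [Field K] [NumberField K] [Field F] [NumberField F] [Field M]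
  [NumberField M] [Field N] [NumberField N] [Algebra K F] [Algebra K M] [Algebra K N] [Algebra M N]
  [Algebra F N] [IsScalarTower K M N] [IsScalarTower K F N] [IsGalois K F] [IsGalois K N]

/-- The decomposition at `W` with respect to `U`. -/
def DCase {K N : Type} [Field K] [NumberField K] [Field N] [NumberField N] [Algebra K N]
    (W : HeightOneSpectrum (𝓞 N)) (U : Subgroup (N ≃ₐ[K] N)) (M : Type) [Field M] [Algebra M N]
    (ρ : N) : Prop :=
  Dec K W ≤ U ∨ ∃ g ∈ Dec K W, ∃ r : ℕ, (∀ h ∈ Dec K W, ∃ i : ℕ, ∃ c ∈ U, h = g ^ i * c) ∧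
    (∀ x : M, (g ^ 2 ^ r) (algebraMap M N x) = algebraMap M N x) ∧ (g ^ 2 ^ r) ρ = -ρ ∧
    (g ^ 2 ^ r) ^ 2 ∈ U

theorem res_apply (h : N ≃ₐ[K] N) (t : F) :
    algebraMap F N (AlgEquiv.restrictNormalHom F h t) = h (algebraMap F N t) :=
  AlgEquiv.restrictNormal_commutes h F t

section Two

variable {W : HeightOneSpectrum (𝓞 N)} {U : Subgroup (N ≃ₐ[K] N)} {T : Subgroup (F ≃ₐ[K] F)}

/-- The first case. -/
theorem dec_le_T (hT : ∀ h ∈ Dec K W, AlgEquiv.restrictNormalHom F h ∈ T ↔ h ∈ U)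
    (h : Dec K W ≤ U) : Dec K (dn F W) ≤ T := by
  rw [← dec_map (N₀ := F) W]
  rintro _ ⟨g, hg, rfl⟩
  exact (hT g hg).2 (h hg)

theorem dec_le_U (hT : ∀ h ∈ Dec K W, AlgEquiv.restrictNormalHom F h ∈ T ↔ h ∈ U)
    (h : Dec K (dn F W) ≤ T) : Dec K W ≤ U := by
  intro g hg
  refine (hT g hg).1 (h ?_)
  rw [← dec_map (N₀ := F) W]
  exact ⟨g, hg, rfl⟩

theorem pow_U {g : N ≃ₐ[K] N} (hU : U.Normal) {i : ℕ} {c : N ≃ₐ[K] N} (hc : c ∈ U) :
    g ^ i * (g ^ i * c)⁻¹ ∈ U := by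
  have e : g ^ i * (g ^ i * c)⁻¹ = g ^ i * c⁻¹ * (g ^ i)⁻¹ := by group
  rw [e]
  exact hU.conj_mem _ (U.inv_mem hc) _

/-- A generator of the decomposition group modulo `U` is in the set `clS`. -/
theorem gen_cl (hU : U.Normal) (hT : ∀ h ∈ Dec K W, AlgEquiv.restrictNormalHom F h ∈ T ↔ h ∈ U)
    {g : N ≃ₐ[K] N} (hg : g ∈ Dec K W) (hgU : g ∉ U)
    (hgen : ∀ h ∈ Dec K W, ∃ i : ℕ, ∃ c ∈ U, h = g ^ i * c) :
    AlgEquiv.restrictNormalHom F g ∈ clS (Dec K (dn F W)) T := by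
  refine ⟨?_, fun h => hgU ((hT g hg).1 h), fun h' hh' => ?_⟩
  · rw [← dec_map (N₀ := F) W]
    exact ⟨g, hg, rfl⟩
  · rw [← dec_map (N₀ := F) W] at hh'
    obtain ⟨h, hh, rfl⟩ := hh'
    obtain ⟨i, c, hc, rfl⟩ := hgen h hh
    refine ⟨i, ?_⟩
    rw [← map_pow, ← map_inv, ← map_mul]
    exact (hT _ ((Dec K W).mul_mem ((Dec K W).pow_mem hg i) ((Dec K W).inv_mem hh))).2
      (pow_U hU hc)

/-- The element which is used at `W`. -/
theorem anti_up {t : F} {S : Set (F ≃ₐ[K] F)} (ht : Anti (Dec K (dn F W)) S t) {h : N ≃ₐ[K] N}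
    (hh : h ∈ Dec K W) :
    (AlgEquiv.restrictNormalHom F h ∈ S → h (algebraMap F N t) = -algebraMap F N t) ∧
    (AlgEquiv.restrictNormalHom F h ∉ S → h (algebraMap F N t) = algebraMap F N t) := by
  have h1 : AlgEquiv.restrictNormalHom F h ∈ Dec K (dn F W) := by
    rw [← dec_map (N₀ := F) W]
    exact ⟨h, hh, rfl⟩
  constructor
  · intro hS
    rw [← res_apply, ht.2.1 _ h1 hS, map_neg]
  · intro hS
    rw [← res_apply, ht.2.2 _ h1 hS]

theorem m_up (ho : Pool.Agent.H10.Over (dn K W) (dn F W)) {m : (dn K W).adicCompletion K} {t : F}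
    (hm : ho.map m = algebraMap F ((dn F W).adicCompletion F) t ^ 2) :
    (over_dn (K := K) W).map m = algebraMap N (W.adicCompletion N) (algebraMap F N t) ^ 2 := by
  have h1 := map_map (K := K) (M := F) W m
  have h2 : (over_mid (k := K) (k' := F) W).map m =
      algebraMap F ((dn F W).adicCompletion F) t ^ 2 := hm
  rw [h2, map_pow, Pool.Agent.H10.Over.map_algebraMap] at h1
  exact h1.symm

theorem gU_of {μρ : N} (hρ0 : μρ ≠ 0) (hUρ : ∀ h ∈ U, h μρ = μρ) {g : N ≃ₐ[K] N} {r : ℕ}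
    (hgρ : (g ^ 2 ^ r) μρ = -μρ) : g ∉ U := by
  intro hgU
  have h1 := hUρ _ (U.pow_mem hgU (2 ^ r))
  rw [hgρ] at h1
  have h2 : 2 * μρ = 0 := by linear_combination -h1
  exact (mul_ne_zero two_ne_zero hρ0) h2

/-- **The class at a place above two.** -/
theorem loc_two {u : HeightOneSpectrum (𝓞 K)} {w₀ : HeightOneSpectrum (𝓞 F)} (hW : dn F W = w₀)
    (hu : dn K w₀ = u) (ho : Pool.Agent.H10.Over u w₀) (h2 : u.valuation K 2 < 1) {a b : Kv u}
    {e : Fin 3 → Kv u} (hs : Spl a b e) (hδ : IsSquare (e 1 - e 0))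
    (h1 : Valued.v (e 1 - e 0) = 1) (h16 : Valued.v (e 2 - e 1) = Valued.v (16 : Kv u))
    {μ : M} {ρ : N} (hρ0 : ρ ≠ 0) (hρ : ρ ^ 2 = algebraMap M N μ) (hU : U.Normal)
    (hUM : ∀ h ∈ U, ∀ x : M, h (algebraMap M N x) = algebraMap M N x) (hUρ : ∀ h ∈ U, h ρ = ρ)
    (hT : ∀ h ∈ Dec K W, AlgEquiv.restrictNormalHom F h ∈ T ↔ h ∈ U) (hcase : DCase W U M ρ)
    {g0 : Kv u} (hg0 : Unr g0) {m : Kv u} (hm : ¬ Dec K w₀ ≤ T → IsM ho (clS (Dec K w₀) T) m) :
    LocCl u e μ (if Dec K w₀ ≤ T then sc g0 else sc m) := by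
  subst hW
  have hKW : dn K (dn F W) = dn K W := H30CY.dn_tower W
  rw [hKW] at hu
  subst hu
  rcases hcase with h | ⟨g, hg, r, hgen, hgM, hgρ, -⟩
  · rw [if_pos (dec_le_T hT h)]
    exact locCl_two_triv h2 hs hδ h1 h16 hρ0 hρ (fun g hg => hUM g (h hg))
      (fun g hg => hUρ g (h hg)) hg0
  · have hgU : g ∉ U := gU_of hρ0 hUρ hgρ
    have hnT : ¬ Dec K (dn F W) ≤ T := fun h => hgU (dec_le_U hT h hg)
    rw [if_neg hnT]
    obtain ⟨t, ht, hmt⟩ := hm hnT
    refine locCl_two_cyc h2 hs hδ h1 h16 hρ0 hρ U hUM hUρ hg hgen hgM hgρ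
      (ρ₀ := algebraMap F N t) ((map_ne_zero _).2 ht.1) (fun h hh hhU => ?_) ?_ (m_up ho hmt)
    · exact (anti_up ht hh).2 fun hS => cl_notMem hS ((hT h hh).2 hhU)
    · exact (anti_up ht hg).1 (gen_cl hU hT hg hgU hgen)

/-- Valuations of elements with a square root in `N`. -/
theorem val_even {V : HeightOneSpectrum (𝓞 N)} {ρ : N} (hρ0 : ρ ≠ 0) {L : Type} [Field L]
    {c : Valuation L (WithZero (Multiplicative ℤ))} {x : L}
    (h : c x = V.valuation N ρ ^ 2) : ∃ n : ℤ, c x = exp (2 * n) := by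
  have h1 : V.valuation N ρ ≠ 0 := (Valuation.ne_zero_iff _).2 hρ0
  refine ⟨log (V.valuation N ρ), ?_⟩
  rw [h]
  conv_lhs => rw [← exp_log h1]
  rw [← exp_nsmul, nsmul_eq_mul]
  norm_num

/-- **The class at an auxiliary place.** -/
theorem loc_odd {u : HeightOneSpectrum (𝓞 K)} {w₀ : HeightOneSpectrum (𝓞 F)} (hW : dn F W = w₀)
    (hu : dn K w₀ = u) (hp : IsPGroup 2 (F ≃ₐ[K] F))
    (hD : ∀ x ∈ Dec K w₀, ∀ y ∈ Dec K w₀, x * y = y * x) (hcyc : CyT (Dec K w₀) T)
    (hunr : ¬ Ram K W) (hodd : OddP u) {a b : Kv u} {e : Fin 3 → Kv u} (hs : Spl a b e)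
    (h1 : Valued.v (e 1 - e 0) = 1) (hτ : Valued.v (e 2 - e 1) < 1) {η : SC (Kv u)}
    (hη : ∀ m : Kv u, ¬ IsSquare m → (∃ n : ℤ, Valued.v m = exp (2 * n)) → sc m = η)
    {s : ZMod 2} (hsig : sc (e 1 - e 0) = if s = 0 then 0 else η)
    {μ : M} {ρ : N} (hρ0 : ρ ≠ 0) (hρ : ρ ^ 2 = algebraMap M N μ) (hU : U.Normal)
    (hUM : ∀ h ∈ U, ∀ x : M, h (algebraMap M N x) = algebraMap M N x) (hUρ : ∀ h ∈ U, h ρ = ρ)
    (hT : ∀ h ∈ Dec K W, AlgEquiv.restrictNormalHom F h ∈ T ↔ h ∈ U) (hcase : DCase W U M ρ) :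
    LocCl u e μ (if Dec K w₀ ≤ T then (if s = 0 then 0 else η) else
      if ∀ x ∈ Dec K w₀, x ^ 2 ∈ T then (if s = 0 then η else 0) else η) := by
  subst hW
  have hKW : dn K (dn F W) = dn K W := H30CY.dn_tower W
  rw [hKW] at hu
  subst hu
  have he0 : e 1 - e 0 ≠ 0 := sub_ne_zero.2 hs.ne01.symm
  have hμ0 : μ ≠ 0 := by
    rintro rfl
    rw [map_zero] at hρ
    exact hρ0 (pow_eq_zero_iff two_ne_zero |>.1 hρ)
  obtain ⟨n, hμv⟩ : ∃ n : ℤ, (dn M W).valuation M μ = exp (2 * n) := by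
    refine val_even (V := W) hρ0 ?_
    have h3 := (unram_mid (k := M) hunr).1 μ hμ0
    unfold ord at h3
    have h4 : W.valuation N (algebraMap M N μ) ≠ 0 :=
      (Valuation.ne_zero_iff _).2 ((map_ne_zero _).2 hμ0)
    have h5 : (dn M W).valuation M μ ≠ 0 := (Valuation.ne_zero_iff _).2 hμ0
    rw [← map_pow, hρ, ← exp_log h4, ← exp_log h5]
    congr 1
    linarith
  have hηη : η + η = 0 := by
    have h2 := H38T1.SC.two_smul η
    rwa [two_nsmul] at h2
  rcases hcase with h | ⟨g, hg, r, hgen, hgM, hgρ, hg2⟩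
  · -- the decomposition group is in `U`
    rw [if_pos (dec_le_T hT h), ← hsig]
    obtain ⟨c, hc⟩ := fixed_range (K := K) (W := W) (y := algebraMap N (W.adicCompletion N) ρ)
      fun g hg => by rw [ac_coe hg, hUρ g (h hg)]
    have hc0 : c ≠ 0 := by
      rintro rfl
      rw [map_zero] at hc
      exact hρ0 ((map_eq_zero _).1 hc.symm)
    have h3 := locCl_odd_one hodd hs h1 hτ hρ0 hρ hμv (fun g hg => hUM g (h hg)) (m := c ^ 2)
      (by rw [map_pow, hc])
    have h4 : sc (c ^ 2 * (e 1 - e 0)) = sc (e 1 - e 0) := by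
      rw [sc_mul (pow_ne_zero 2 hc0) he0, (sc_eq_zero (pow_ne_zero 2 hc0)).2 ⟨c, sq c⟩, zero_add]
    rw [h4] at h3
    exact h3
  · have hgU : g ∉ U := gU_of hρ0 hUρ hgρ
    have hnT : ¬ Dec K (dn F W) ≤ T := fun h => hgU (dec_le_U hT h hg)
    rw [if_neg hnT]
    rcases r with _ | r
    · -- the decomposition group fixes `M`
      rw [pow_zero, pow_one] at hgρ hg2
      have hgM' : ∀ x : M, g (algebraMap M N x) = algebraMap M N x := fun x => by
        have h3 := hgM x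
        rwa [pow_zero, pow_one] at h3
      have hDM : ∀ h ∈ Dec K W, ∀ x : M, h (algebraMap M N x) = algebraMap M N x := by
        intro h hh x
        obtain ⟨i, c, hc, rfl⟩ := hgen h hh
        rw [AlgEquiv.mul_apply, hUM c hc]
        clear hh
        induction i with
        | zero => rfl
        | succ i ih => rw [pow_succ, AlgEquiv.mul_apply, hgM', ih]
      have hsq : ∀ x ∈ Dec K (dn F W), x ^ 2 ∈ T := by
        intro x hx
        rw [← dec_map (N₀ := F) W] at hx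
        obtain ⟨h, hh, rfl⟩ := hx
        rw [← map_pow]
        refine (hT _ ((Dec K W).pow_mem hh 2)).2 ?_
        obtain ⟨i, c, hc, rfl⟩ := hgen h hh
        have h3 : (g ^ i * c) ^ 2 = (g ^ i * c * (g ^ i)⁻¹) * (g ^ 2) ^ i * c := by
          rw [sq (g ^ i * c), ← pow_mul, mul_comm 2 i, pow_mul, sq (g ^ i)]
          group
        rw [h3]
        exact U.mul_mem (U.mul_mem (hU.conj_mem _ hc _) (U.pow_mem hg2 i)) hc
      rw [if_pos hsq]
      obtain ⟨m, hm⟩ := fixed_range (K := K) (W := W)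
        (y := algebraMap N (W.adicCompletion N) ρ ^ 2) fun h hh => by
          rw [← map_pow, ac_coe hh, hρ, hDM h hh]
      have hns : ¬ IsSquare m := nsq_of hρ0 hg hgρ hm
      have hm0 : m ≠ 0 := by
        rintro rfl
        exact hns IsSquare.zero
      have hmη : sc m = η := by
        refine hη m hns (val_even (V := W) hρ0 ?_)
        rw [← val_unr hunr, hm, map_pow, val_coe]
      have h3 := locCl_odd_one hodd hs h1 hτ hρ0 hρ hμv hDM hm
      rw [sc_mul hm0 he0, hmη, hsig] at h3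
      by_cases hs0 : s = 0
      · rw [if_pos hs0]
        rw [if_pos hs0, add_zero] at h3
        exact h3
      · rw [if_neg hs0]
        rw [if_neg hs0, hηη] at h3
        exact h3
    · have hnsq : ¬ ∀ x ∈ Dec K (dn F W), x ^ 2 ∈ T := by
        intro hall
        have h3 : AlgEquiv.restrictNormalHom F g ∈ Dec K (dn F W) := by
          rw [← dec_map (N₀ := F) W]
          exact ⟨g, hg, rfl⟩
        have h4 := hall _ h3
        rw [← map_pow] at h4
        have h5 := (hT _ ((Dec K W).pow_mem hg 2)).1 h4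
        have h6 := hUρ _ (U.pow_mem h5 (2 ^ r))
        rw [← pow_mul, ← pow_succ', hgρ] at h6
        have h2 : 2 * ρ = 0 := by linear_combination -h6
        exact (mul_ne_zero two_ne_zero hρ0) h2
      rw [if_neg hnsq]
      obtain ⟨t, ht⟩ := exists_anti hp hD hcyc hnT
      obtain ⟨m, hm⟩ := exists_isM (K := K) (w₀ := dn F W) hKW (over_mid W) ht
      have hm' := m_up (F := F) (over_mid W) hm
      have hgt : g (algebraMap F N t) = -algebraMap F N t :=
        (anti_up ht hg).1 (gen_cl hU hT hg hgU hgen)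
      have ht0 : algebraMap F N t ≠ 0 := (map_ne_zero _).2 ht.1
      have hns : ¬ IsSquare m := nsq_of ht0 hg hgt hm'
      have hm0 : m ≠ 0 := by
        rintro rfl
        exact hns IsSquare.zero
      have hmη : sc m = η := by
        refine hη m hns (val_even (V := W) ht0 ?_)
        rw [← val_unr hunr, hm', map_pow, val_coe]
      rw [← hmη]
      refine locCl_odd_cyc hodd hs h1 hτ hρ0 hρ hμv U hUM hUρ hg hgen hgM hgρ ht0
        (fun h hh hhU => (anti_up ht hh).2 fun hS => cl_notMem hS ((hT h hh).2 hhU)) hgt hm' ?_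
      by_cases hs0 : s = 0
      · left
        rw [if_pos hs0] at hsig
        exact (sc_eq_zero he0).1 hsig
      · right
        rw [if_neg hs0] at hsig
        refine (sc_eq_zero (mul_ne_zero he0 hm0)).1 ?_
        rw [sc_mul he0 hm0, hmη, hsig, hηη]

end Two

end H30MG
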