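import Pool.Agent.H30.MG.Cy
import Pool.Agent.H76.AB.Cg

/-!
Project MG (MP_78d38b_nt): the residue classes at the places of the configuration (no row). Compare
`Pool/Agent/H36/MX/Bg.lean`.
-/

set_option autoImplicit false
set_option linter.unusedSectionVars false
open scoped Classical

open WithZero NumberField IsDedekindDomain H38RT
open H38T1 (SC sc scu rep rep_ne sc_rep sc_mul sc_eq_zero sc_surj eo la si Pri OddP tp unif ka)
open H76PP H36MX H76MX H76AB

namespace H30MG

variable {K : Type} [Field K] [NumberField K]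

/-- The properties of the roots. -/
def LpM (η : (u : HeightOneSpectrum (𝓞 K)) → SC (Kv u)) (s : ZMod 2) : LPred K := fun u _ _ e =>
  ((2 : 𝓞 K) ∈ u.asIdeal → IsSquare (e 1 - e 0) ∧ Valued.v (e 1 - e 0) = 1 ∧
    Valued.v (e 2 - e 1) = Valued.v (16 : Kv u)) ∧
  ((2 : 𝓞 K) ∉ u.asIdeal → Valued.v (e 1 - e 0) = 1 ∧ Valued.v (e 2 - e 1) < 1 ∧
    sc (e 1 - e 0) = if s = 0 then 0 else η u)

/-- `η u` is the unramified class at an odd place. -/
def EtaOdd (η : (u : HeightOneSpectrum (𝓞 K)) → SC (Kv u)) : Prop :=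
  ∀ u : HeightOneSpectrum (𝓞 K), (2 : 𝓞 K) ∉ u.asIdeal → ∃ n : 𝓞 K, n ∉ u.asIdeal ∧
    eo u (sc (n : K)) = 0 ∧ la u (sc (n : K)) = 1 ∧ η u = sc (algebraMap K (Kv u) (n : K))

/-- `η u` is the unramified class at a place above two. -/
def EtaTwo (η : (u : HeightOneSpectrum (𝓞 K)) → SC (Kv u)) : Prop :=
  ∀ u : HeightOneSpectrum (𝓞 K), (2 : 𝓞 K) ∈ u.asIdeal → ∃ g0 : Kv u, Unr g0 ∧ η u = sc g0

theorem two_lt_of {u : HeightOneSpectrum (𝓞 K)} (h2 : (2 : 𝓞 K) ∈ u.asIdeal) :
    u.valuation K 2 < 1 := by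
  have h := (u.valuation_lt_one_iff_mem (K := K) (2 : 𝓞 K)).2 h2
  exact lt_of_eq_of_lt (congrArg (u.valuation K) (map_ofNat (algebraMap (𝓞 K) K) 2).symm) h

theorem exists_etaG (K : Type) [Field K] [NumberField K] :
    ∃ η : (u : HeightOneSpectrum (𝓞 K)) → SC (Kv u), (∀ u, η u ≠ 0) ∧ EtaTwo η ∧ EtaOdd η := by
  have key : ∀ u : HeightOneSpectrum (𝓞 K), ∃ x : SC (Kv u), x ≠ 0 ∧
      ((2 : 𝓞 K) ∈ u.asIdeal → ∃ g0 : Kv u, Unr g0 ∧ x = sc g0) ∧
      ((2 : 𝓞 K) ∉ u.asIdeal → ∃ n : 𝓞 K, n ∉ u.asIdeal ∧ eo u (sc (n : K)) = 0 ∧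
        la u (sc (n : K)) = 1 ∧ x = sc (algebraMap K (Kv u) (n : K))) := by
    intro u
    by_cases h2 : (2 : 𝓞 K) ∈ u.asIdeal
    · obtain ⟨g0, hg0⟩ := exists_unr (two_lt_of h2)
      have hg : g0 ≠ 0 := by
        intro h
        have h1 := unr_one (two_lt_of h2) hg0
        rw [h, map_zero] at h1
        exact zero_ne_one h1
      refine ⟨sc g0, ?_, fun _ => ⟨g0, hg0, rfl⟩, fun h => absurd h2 h⟩
      intro h
      exact unr_nsq (two_lt_of h2) hg0 ((sc_eq_zero hg).1 h)
    · have hodd : OddP u := H30MQ.oddP_of h2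
      obtain ⟨n, hn, hne, hnl⟩ := exists_la hodd
      have hn0 : (n : K) ≠ 0 := by
        intro h
        exact hn (by
          have : n = 0 := RingOfIntegers.coe_eq_zero_iff.1 h
          rw [this]
          exact Ideal.zero_mem _)
      refine ⟨sc (algebraMap K (Kv u) (n : K)), ?_, fun h => absurd h h2,
        fun _ => ⟨n, hn, hne, hnl, rfl⟩⟩
      intro h
      exact nsq_of_la hodd hn0 hnl hne ((sc_eq_zero ((map_ne_zero _).2 hn0)).1 h)
  choose η hη0 hη2 hηo using key
  exact ⟨η, hη0, hη2, hηo⟩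

/-- At an odd place every element of even valuation which is not a square has the class `η u`. -/
theorem eta_class {η : (u : HeightOneSpectrum (𝓞 K)) → SC (Kv u)} (hη : EtaOdd η)
    {u : HeightOneSpectrum (𝓞 K)} (h2 : (2 : 𝓞 K) ∉ u.asIdeal) (m : Kv u) (hm : ¬ IsSquare m)
    (hv : ∃ n : ℤ, Valued.v m = exp (2 * n)) : sc m = η u := by
  have hodd : OddP u := H30MQ.oddP_of h2
  obtain ⟨n, hn, hne, hnl, hη'⟩ := hη u h2
  have hn0 : (n : K) ≠ 0 := by
    intro h
    exact hn (by
      have : n = 0 := RingOfIntegers.coe_eq_zero_iff.1 h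
      rw [this]
      exact Ideal.zero_mem _)
  have hm0 : m ≠ 0 := by
    rintro rfl
    exact hm IsSquare.zero
  obtain ⟨y, hy0, r, hr, hyr⟩ := rep_F u hm0
  have hy0' : algebraMap K (u.adicCompletion K) y ≠ 0 := (map_ne_zero _).2 hy0
  have h3 : sc (algebraMap K (u.adicCompletion K) y) = sc m := by
    refine sc_eq_of_sq hy0' hm0 ⟨m * r, ?_⟩
    rw [hyr]
    ring
  have heo : eo u (sc y) = 0 := by
    rw [H38T1.eo_sc hy0, ZMod.intCast_eq_zero_iff_even]
    obtain ⟨k, hk⟩ := hv
    have h4 := congrArg Valued.v hyr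
    rw [H36CY.val_coe, map_mul, map_pow, hk] at h4
    have h5 : Valued.v r ≠ 0 := (Valuation.ne_zero_iff _).2 hr
    refine ⟨-(k + log (Valued.v r)), ?_⟩
    unfold ord
    rw [h4, ← exp_log h5, ← exp_nsmul, ← exp_add, log_exp, log_exp, nsmul_eq_mul]
    push_cast
    ring
  have hla : la u (sc y) = 1 := by
    have h4 : la u (sc y) ≠ 0 := by
      intro h
      have h5 := (sc_eq_zero hy0').2 (sq_of_la hodd hy0 heo h)
      rw [h3] at h5
      exact hm ((sc_eq_zero hm0).1 h5)
    revert h4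
    generalize la u (sc y) = z
    revert z
    decide
  rw [hη', ← h3]
  refine sc_eq_of_sq hy0' ((map_ne_zero _).2 hn0) ?_
  rw [← map_mul]
  refine sq_of_la hodd (mul_ne_zero hy0 hn0) ?_ ?_
  · rw [sc_mul hy0 hn0, H38T1.eo_add, heo, hne, add_zero]
  · rw [sc_mul hy0 hn0, H38T1.la_add hodd, hla, hnl]
    decide

/-- The class at a place above two. -/
theorem dyadicG (η : (u : HeightOneSpectrum (𝓞 K)) → SC (Kv u)) (s : ZMod 2)
    {u : HeightOneSpectrum (𝓞 K)} (h2 : (2 : 𝓞 K) ∈ u.asIdeal) :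
    ∃ N : ℕ, LocClass (LpM η s) u (-91) (-330) N := by
  have h2v := two_lt_of h2
  have h20 : (2 : K) ≠ 0 := two_ne_zero
  obtain ⟨n, hn⟩ : ∃ n : ℕ, u.valuation K 2 = exp (-(n : ℤ)) := by
    refine ⟨(-log (u.valuation K 2)).toNat, ?_⟩
    have h0 : u.valuation K 2 ≠ 0 := (Valuation.ne_zero_iff _).2 h20
    have h1 : log (u.valuation K 2) ≤ 0 := by
      have h3 := (log_le_log h0 one_ne_zero).2 h2v.le
      rwa [log_one] at h3
    rw [Int.toNat_of_nonneg (by omega), neg_neg, exp_log h0]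
  have hn0 : 0 < n := by
    rcases Nat.eq_zero_or_pos n with h | h
    · rw [h] at hn
      norm_num at hn
      exact absurd hn h2v.ne
    · exact h
  have hpow : ∀ k : ℕ, u.valuation K ((2 : K) ^ k) = exp (-((k * n : ℕ) : ℤ)) := by
    intro k
    rw [map_pow, hn, ← exp_nsmul, nsmul_eq_mul]
    congr 1
    push_cast
    ring
  have hpowF : ∀ k : ℕ, Valued.v ((2 : u.adicCompletion K) ^ k) = exp (-((k * n : ℕ) : ℤ)) := by
    intro k
    have e1 : (2 : u.adicCompletion K) ^ k = algebraMap K (u.adicCompletion K) (2 ^ k) := by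
      rw [map_pow, map_ofNat]
    rw [e1, H36CY.val_coe, hpow]
  refine ⟨14 * n, ?_, ?_⟩
  · intro hmem
    rw [mem_pow_iff] at hmem
    have e1 : ((dsc (-91 : 𝓞 K) (-330) : 𝓞 K) : K) = -(2 ^ 8 * 17 ^ 2) := by
      unfold dsc
      simp only [map_add, map_mul, map_pow, map_neg, map_ofNat]
      norm_num
    have h17 : u.valuation K 17 = 1 := by
      have e2 : (17 : K) = 1 + 2 ^ 4 := by norm_num
      have h3 : u.valuation K (2 ^ 4) < 1 := by
        rw [hpow]
        rw [← exp_zero, exp_lt_exp]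
        omega
      rw [e2]
      exact Valuation.map_one_add_of_lt _ h3
    rw [e1, Valuation.map_neg, map_mul, hpow, map_pow, h17, one_pow, mul_one, exp_le_exp] at hmem
    push_cast at hmem
    have : (0 : ℤ) < n := by exact_mod_cast hn0
    omega
  · intro A B hA hB
    rw [mem_pow_iff] at hA hB
    have eA : ((A - (-91) : 𝓞 K) : K) = (A : K) + 91 := by
      simp only [map_sub, map_neg, map_ofNat]
      ring
    have eB : ((B - (-330) : 𝓞 K) : K) = (B : K) + 330 := by
      simp only [map_sub, map_neg, map_ofNat]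
      ring
    rw [eA] at hA
    rw [eB] at hB
    obtain ⟨e, hs, hδ, h1, h16⟩ := roots_two (v := u) h2v
      (a := algebraMap K (u.adicCompletion K) (A : K))
      (b := algebraMap K (u.adicCompletion K) (B : K)) (by
        have e3 : algebraMap K (u.adicCompletion K) (A : K) + 91 =
            algebraMap K (u.adicCompletion K) ((A : K) + 91) := by
          rw [map_add, map_ofNat]
        rw [e3, H36CY.val_coe, hpowF]
        exact hA) (by
        have e3 : algebraMap K (u.adicCompletion K) (B : K) + 330 =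
            algebraMap K (u.adicCompletion K) ((B : K) + 330) := by
          rw [map_add, map_ofNat]
        rw [e3, H36CY.val_coe, hpowF]
        exact hB)
    exact ⟨e, hs, fun _ => ⟨hδ, h1, h16⟩, fun h => absurd h2 h⟩

/-- The classes at an auxiliary place. -/
theorem auxG {η : (u : HeightOneSpectrum (𝓞 K)) → SC (Kv u)} (hη : EtaOdd η)
    {u : HeightOneSpectrum (𝓞 K)} (h6 : (6 : 𝓞 K) ∉ u.asIdeal) (s : ZMod 2) :
    ∃ (a b : 𝓞 K) (N : ℕ), LocClass (LpM η s) u a b N := by
  obtain ⟨hodd, hv6, hv3⟩ := odd_of_six h6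
  have h2 : (2 : 𝓞 K) ∉ u.asIdeal := fun h => h6 (by
    rw [show (6 : 𝓞 K) = 2 * 3 by norm_num]
    exact Ideal.mul_mem_right _ _ h)
  obtain ⟨n, hn, hne, hnl, hη'⟩ := hη u h2
  have hn0 : (n : K) ≠ 0 := by
    intro h
    exact hn (by
      have : n = 0 := RingOfIntegers.coe_eq_zero_iff.1 h
      rw [this]
      exact Ideal.zero_mem _)
  -- the unit
  obtain ⟨σ, hσ, hσs⟩ : ∃ σ : 𝓞 K, σ ∉ u.asIdeal ∧
      sc (algebraMap K (Kv u) (σ : K)) = if s = 0 then 0 else η u := by
    by_cases hs0 : s = 0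
    · rw [if_pos hs0]
      refine ⟨1, ?_, ?_⟩
      · intro h
        exact u.isPrime.ne_top ((Ideal.eq_top_iff_one _).2 h)
      · have e1 : ((1 : 𝓞 K) : K) = 1 := map_one _
        rw [e1, map_one]
        exact (sc_eq_zero one_ne_zero).2 IsSquare.one
    · rw [if_neg hs0]
      exact ⟨n, hn, hη'.symm⟩
  have hσv : u.valuation K (σ : K) = 1 := u.valuation_eq_one_iff_notMem.2 hσ
  have hσ0 : (σ : K) ≠ 0 := by
    intro h
    rw [h, map_zero] at hσv
    exact zero_ne_one hσv
  obtain ⟨π, hπ⟩ := u.intValuation_exists_uniformizer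
  have hπv : u.valuation K (π : K) = exp (-1 : ℤ) := by
    rw [u.valuation_of_algebraMap]
    exact hπ
  obtain ⟨t, ht⟩ : ∃ t : 𝓞 K, t = 3 * σ * π ^ 2 := ⟨_, rfl⟩
  have htK : (t : K) = 3 * (σ : K) * (π : K) ^ 2 := by
    rw [ht]
    push_cast
    rfl
  have htv : u.valuation K (t : K) = exp (-2 : ℤ) := by
    rw [htK, map_mul, map_mul, map_pow, hv3, hσv, hπv, one_mul, one_mul, ← exp_nsmul]
    norm_num
  refine ⟨-(27 * σ ^ 2 + 9 * σ * t + 3 * t ^ 2),
    54 * σ ^ 3 + 27 * σ ^ 2 * t - 9 * σ * t ^ 2 - 2 * t ^ 3, 5, ?_, ?_⟩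
  · intro hmem
    rw [mem_pow_iff] at hmem
    have e1 : ((dsc (-(27 * σ ^ 2 + 9 * σ * t + 3 * t ^ 2))
        (54 * σ ^ 3 + 27 * σ ^ 2 * t - 9 * σ * t ^ 2 - 2 * t ^ 3) : 𝓞 K) : K) =
        -(3 * 3 * (σ : K) * (3 * 3 * (σ : K) + 3 * (t : K)) * (3 * (t : K))) ^ 2 := by
      unfold dsc
      simp only [map_add, map_sub, map_mul, map_pow, map_neg, map_ofNat]
      ring
    have h9 : u.valuation K (3 * 3 * (σ : K) + 3 * (t : K)) = 1 := by
      rw [Valuation.map_add_eq_of_lt_left]
      · rw [map_mul, map_mul, hv3, hσv]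
        simp
      · rw [map_mul, map_mul, map_mul, hv3, hσv, htv]
        simp only [one_mul]
        rw [← exp_zero, exp_lt_exp]
        norm_num
    rw [e1, Valuation.map_neg, map_pow, map_mul, map_mul, h9, map_mul, map_mul, map_mul, hv3, hσv,
      htv] at hmem
    simp only [one_mul, mul_one] at hmem
    rw [← exp_nsmul, exp_le_exp] at hmem
    norm_num at hmem
  · intro A B hA hB
    rw [mem_pow_iff] at hA hB
    obtain ⟨e, hs, h1, hτ, hsq⟩ := roots_odd (v := u) hv6
      (s := algebraMap K (u.adicCompletion K) (σ : K)) (t := algebraMap K (u.adicCompletion K) (t : K))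
      (a := algebraMap K (u.adicCompletion K) (A : K))
      (b := algebraMap K (u.adicCompletion K) (B : K))
      (by rw [H36CY.val_coe]; exact hσv) (by rw [H36CY.val_coe]; exact htv)
      (by
        refine ⟨algebraMap K (u.adicCompletion K) (3 * (σ : K) * (π : K)), ?_⟩
        have e3 : (3 : u.adicCompletion K) = algebraMap K (u.adicCompletion K) 3 := by
          rw [map_ofNat]
        rw [e3, ← map_mul, ← map_mul, ← map_mul, htK]
        congr 1
        ring)
      (by
        have e3 : algebraMap K (u.adicCompletion K) (A : K) +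
            (27 * algebraMap K (u.adicCompletion K) (σ : K) ^ 2 +
              9 * algebraMap K (u.adicCompletion K) (σ : K) *
                algebraMap K (u.adicCompletion K) (t : K) +
              3 * algebraMap K (u.adicCompletion K) (t : K) ^ 2) =
            algebraMap K (u.adicCompletion K)
              ((A - -(27 * σ ^ 2 + 9 * σ * t + 3 * t ^ 2) : 𝓞 K) : K) := by
          simp only [map_sub, map_add, map_mul, map_pow, map_neg, map_ofNat]
          ring
        rw [e3, H36CY.val_coe]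
        exact hA)
      (by
        have e3 : algebraMap K (u.adicCompletion K) (B : K) -
            (54 * algebraMap K (u.adicCompletion K) (σ : K) ^ 3 +
              27 * algebraMap K (u.adicCompletion K) (σ : K) ^ 2 *
                algebraMap K (u.adicCompletion K) (t : K) -
              9 * algebraMap K (u.adicCompletion K) (σ : K) *
                algebraMap K (u.adicCompletion K) (t : K) ^ 2 -
              2 * algebraMap K (u.adicCompletion K) (t : K) ^ 3) =
            algebraMap K (u.adicCompletion K)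
              ((B - (54 * σ ^ 3 + 27 * σ ^ 2 * t - 9 * σ * t ^ 2 - 2 * t ^ 3) : 𝓞 K) : K) := by
          simp only [map_sub, map_add, map_mul, map_pow, map_ofNat]
        rw [e3, H36CY.val_coe]
        exact hB)
    refine ⟨e, hs, fun h => absurd h h2, fun _ => ⟨h1, hτ, ?_⟩⟩
    rw [← hσs]
    have hσ0' : algebraMap K (u.adicCompletion K) (σ : K) ≠ 0 := (map_ne_zero _).2 hσ0
    exact sc_eq_of_sq (sub_ne_zero.2 hs.ne01.symm) hσ0' hsq

end H30MG
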