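import Pool.Agent.H36.CY.Ia
import Pool.Agent.H36.CY.Vl
import Pool.Agent.H36.CY.Ly
import Pool.Agent.H36.LG.Mp

/-!
Project MG (MP_78d38b_nt): the action of the decomposition group `Dec K W` on the completion `N_W`; its fixed field is
the completion of `K`.
-/

set_option autoImplicit false
set_option linter.unusedSectionVars false
open scoped Classical

open WithZero NumberField IsDedekindDomain H76PP H36CY

namespace H30MG

variable {K N : Type} [Field K] [NumberField K] [Field N] [NumberField N] [Algebra K N]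

variable (K) in
/-- The decomposition group of `W`. -/
def Dec (W : HeightOneSpectrum (𝓞 N)) : Subgroup (N ≃ₐ[K] N) where
  carrier := {g | Stb K W g}
  mul_mem' := by
    intro g h hg hh y
    rw [AlgEquiv.mul_apply, hg, hh]
  one_mem' := fun y => rfl
  inv_mem' := by
    intro g hg y
    have h1 := hg (g⁻¹ y)
    have h2 : g (g⁻¹ y) = y := g.apply_symm_apply y
    rw [h2] at h1
    exact h1.symm

theorem mem_dec {W : HeightOneSpectrum (𝓞 N)} {g : N ≃ₐ[K] N} :
    g ∈ Dec K W ↔ ∀ y : N, W.valuation N (g y) = W.valuation N y := Iff.rfl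

/-- The action of the decomposition group on the completion. -/
noncomputable def ac (W : HeightOneSpectrum (𝓞 N)) (g : N ≃ₐ[K] N) :
    W.adicCompletion N →+* W.adicCompletion N :=
  if h : Stb K W g then (exists_act W h).choose else RingHom.id _

theorem ac_cont (W : HeightOneSpectrum (𝓞 N)) (g : N ≃ₐ[K] N) : Continuous (ac W g) := by
  unfold ac
  split_ifs with h
  · exact (exists_act W h).choose_spec.1
  · exact continuous_id

theorem ac_coe {W : HeightOneSpectrum (𝓞 N)} {g : N ≃ₐ[K] N} (hg : g ∈ Dec K W) (x : N) :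
    ac W g (algebraMap N (W.adicCompletion N) x) = algebraMap N (W.adicCompletion N) (g x) := by
  unfold ac
  have h : Stb K W g := hg
  rw [dif_pos h]
  exact (exists_act W h).choose_spec.2 x

theorem ac_mul {W : HeightOneSpectrum (𝓞 N)} {g h : N ≃ₐ[K] N} (hg : g ∈ Dec K W)
    (hh : h ∈ Dec K W) (y : W.adicCompletion N) : ac W (g * h) y = ac W g (ac W h y) := by
  have h1 := act_ext (K := N) W (f := fun y => ac W (g * h) y) (f' := fun y => ac W g (ac W h y))
    (ac_cont W _) ((ac_cont W g).comp (ac_cont W h)) (fun x => by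
      rw [ac_coe ((Dec K W).mul_mem hg hh), ac_coe hh, ac_coe hg]
      rfl)
  exact congrFun h1 y

theorem ac_one (W : HeightOneSpectrum (𝓞 N)) (y : W.adicCompletion N) :
    ac W (1 : N ≃ₐ[K] N) y = y := by
  have h1 := act_ext (K := N) W (f := fun y => ac W (1 : N ≃ₐ[K] N) y) (f' := fun y => y)
    (ac_cont W _) continuous_id (fun x => by
      rw [ac_coe (Dec K W).one_mem]
      rfl)
  exact congrFun h1 y

theorem ac_pow {W : HeightOneSpectrum (𝓞 N)} {g : N ≃ₐ[K] N} (hg : g ∈ Dec K W) (n : ℕ)
    (y : W.adicCompletion N) : ac W (g ^ n) y = (ac W g)^[n] y := by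
  induction n with
  | zero => rw [pow_zero, ac_one]; rfl
  | succ n ih =>
    rw [pow_succ', ac_mul hg (pow_mem hg n), ih, Function.iterate_succ_apply']

theorem ac_iso {W : HeightOneSpectrum (𝓞 N)} {g : N ≃ₐ[K] N} (hg : g ∈ Dec K W)
    (y : W.adicCompletion N) : Valued.v (ac W g y) = Valued.v y :=
  act_iso (K := K) hg (ac_cont W g) (fun x => ac_coe hg x) y

/-- An element of the completion which is fixed by the decomposition group is a limit of elements of the base
field. -/
theorem dense_gen [IsGalois K N] {W : HeightOneSpectrum (𝓞 N)} {y : W.adicCompletion N}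
    (hy : ∀ g ∈ Dec K W, ac W g y = y) {ε : WithZero (Multiplicative ℤ)} (hε : ε ≠ 0) :
    ∃ t : K, Valued.v (y - algebraMap N (W.adicCompletion N) (algebraMap K N t)) < ε := by
  have : FiniteDimensional K N := Module.Finite.of_restrictScalars_finite ℚ K N
  set i := algebraMap N (W.adicCompletion N) with hi
  have hiv : ∀ k : N, Valued.v (i k) = W.valuation N k := fun k =>
    HeightOneSpectrum.valuedAdicCompletion_eq_valuation' W k
  have hdense : DenseRange (⇑i) := HeightOneSpectrum.denseRange_algebraMap (K := N) W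
  have hF : Fintype (N ≃ₐ[K] N) := inferInstance
  let H : Finset (N ≃ₐ[K] N) := Finset.univ.filter (fun g => g ∈ Dec K W)
  have hH : ∀ g, g ∈ H ↔ g ∈ Dec K W := fun g => by
    rw [Finset.mem_filter]
    exact ⟨fun h => h.2, fun h => ⟨Finset.mem_univ _, h⟩⟩
  have h1H : (1 : N ≃ₐ[K] N) ∈ H := (hH 1).2 (Dec K W).one_mem
  obtain ⟨m, hm⟩ : ∃ m, m = H.card := ⟨_, rfl⟩
  have hm0 : m ≠ 0 := by
    rw [hm]
    exact Finset.card_ne_zero_of_mem h1H
  have hmN : (m : N) ≠ 0 := Nat.cast_ne_zero.2 hm0
  obtain ⟨π, hπ⟩ := W.valuation_exists_uniformizer N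
  have hπ0 : π ≠ 0 := by
    rintro rfl
    rw [map_zero] at hπ
    exact absurd hπ.symm (by simp)
  have hπ1 : W.valuation N π < 1 := by
    rw [hπ]
    exact (WithZero.exp_lt_exp.2 (by norm_num : (-1 : ℤ) < 0)).trans_eq WithZero.exp_zero
  obtain ⟨n, hn⟩ := exists_pow_lt₀ hπ1 (Units.mk0 ε hε)
  rw [Units.val_mk0] at hn
  have hc'0 : i (π ^ n * m) ≠ 0 := (map_ne_zero i).2 (mul_ne_zero (pow_ne_zero _ hπ0) hmN)
  obtain ⟨c, hc⟩ := hdense.mem_nhds (Te_nhd y hc'0)
  have hc1 : Valued.v (y - i c) < Valued.v (i (π ^ n * m)) := by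
    rw [Valuation.map_sub_swap]
    exact hc
  have hj : ∀ g ∈ Dec K W, Valued.v (y - i (g c)) = Valued.v (y - i c) := by
    intro g hg
    have h1 : y - i (g c) = ac W g (y - i c) := by
      rw [map_sub, hy g hg, ac_coe hg]
    rw [h1, ac_iso hg]
  set S : N := ∑ g ∈ H, g c with hS
  have hfix : ∀ g : N ≃ₐ[K] N, Stb K W g → g (S / m) = S / m := by
    intro g hg
    rw [map_div₀, map_natCast, hS, map_sum]
    congr 1
    refine Finset.sum_bij (fun h _ => g * h) (fun h hh => ?_) (fun a _ b _ hab => mul_left_cancel hab)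
      (fun h hh => ⟨g⁻¹ * h, ?_, by group⟩) (fun h _ => rfl)
    · rw [hH] at hh ⊢
      exact (Dec K W).mul_mem hg hh
    · rw [hH] at hh ⊢
      exact (Dec K W).mul_mem ((Dec K W).inv_mem hg) hh
  obtain ⟨t, ht⟩ := dense_fix W hfix hε
  refine ⟨t, ?_⟩
  have h1 : (m : W.adicCompletion N) * (y - i (S / m)) = ∑ g ∈ H, (y - i (g c)) := by
    rw [Finset.sum_sub_distrib, Finset.sum_const, ← hm, nsmul_eq_mul, ← map_sum,
      ← hS, mul_sub, map_div₀, map_natCast, mul_div_cancel₀]
    rw [← map_natCast i]
    exact (map_ne_zero i).2 hmN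
  have h2 : Valued.v ((m : W.adicCompletion N) * (y - i (S / m))) < Valued.v (i (π ^ n * m)) := by
    rw [h1]
    refine Valuation.map_sum_lt _ ((Valuation.ne_zero_iff _).2 hc'0) fun g hg => ?_
    rw [hj g ((hH g).1 hg)]
    exact hc1
  have h3 : Valued.v (y - i (S / m)) < ε := by
    rw [map_mul i, map_mul, map_mul, map_natCast i, mul_comm (Valued.v (i (π ^ n)))] at h2
    have h4 := lt_of_mul_lt_mul_left h2 zero_le
    rw [map_pow, map_pow, hiv] at h4
    exact h4.trans hn
  have h4 : y - i (algebraMap K N t) = (y - i (S / m)) + i (S / m - algebraMap K N t) := by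
    rw [map_sub]
    ring
  rw [h4]
  refine Valuation.map_add_lt _ h3 ?_
  rw [hiv]
  exact ht

/-- The map of completions reflects the order. -/
theorem map_lt_rev (W : HeightOneSpectrum (𝓞 N)) {x y : (dn K W).adicCompletion K}
    (h : Valued.v ((over_dn (K := K) W).map x) < Valued.v ((over_dn (K := K) W).map y)) :
    Valued.v x < Valued.v y := by
  by_contra hc
  rw [not_lt] at hc
  exact absurd h (not_lt.2 (H36LG.map_le' (over_dn (K := K) W) hc))

/-- The image of the completion of the base field is closed. -/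
theorem closed_range (W : HeightOneSpectrum (𝓞 N)) {y : W.adicCompletion N}
    (hy : ∀ ε : WithZero (Multiplicative ℤ), ε ≠ 0 →
      ∃ t : K, Valued.v (y - algebraMap N (W.adicCompletion N) (algebraMap K N t)) < ε) :
    ∃ x : (dn K W).adicCompletion K, (over_dn (K := K) W).map x = y := by
  set hov := over_dn (K := K) W with hhov
  set F : Filter ((dn K W).adicCompletion K) := Filter.comap hov.map (nhds y) with hF
  have hne : F.NeBot := by
    rw [hF, Filter.comap_neBot_iff]
    intro s hs
    rw [Valued.mem_nhds] at hs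
    obtain ⟨γ, hγ⟩ := hs
    obtain ⟨t, ht⟩ := hy (MonoidWithZeroHom.ValueGroup₀.embedding γ.1) (by simp)
    refine ⟨algebraMap K _ t, hγ ?_⟩
    change Valued.v.restrict _ < γ.1
    rw [Valuation.restrict_lt_iff_lt_embedding, hov.map_algebraMap, Valuation.map_sub_swap]
    exact ht
  have hca : Cauchy F := by
    rw [Valued.cauchy_iff]
    refine ⟨hne, fun γ => ?_⟩
    obtain ⟨n, hn⟩ := exists_exp_neg_natCast_lt
      (x := MonoidWithZeroHom.ValueGroup₀.embedding γ.1) (by simp)
    obtain ⟨c, hc⟩ := (dn K W).valuation_surjective K (exp (-(n : ℤ)))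
    have hc0 : c ≠ 0 := by
      rintro rfl
      rw [map_zero] at hc
      exact exp_ne_zero hc.symm
    obtain ⟨c', hc'⟩ : ∃ c', c' = hov.map (algebraMap K _ c) := ⟨_, rfl⟩
    have hc'0 : c' ≠ 0 := by
      rw [hc']
      exact (map_ne_zero _).2 ((map_ne_zero _).2 hc0)
    refine ⟨hov.map ⁻¹' {z | Valued.v (z - y) < Valued.v c'}, Filter.preimage_mem_comap
      (Te_nhd y hc'0), fun x hx z hz => ?_⟩
    change Valued.v (hov.map x - y) < Valued.v c' at hx
    change Valued.v (hov.map z - y) < Valued.v c' at hz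
    have h1 : Valued.v (hov.map (z - x)) < Valued.v (hov.map (algebraMap K _ c)) := by
      rw [← hc']
      have h2 : hov.map (z - x) = (hov.map z - y) - (hov.map x - y) := by
        rw [map_sub]
        ring
      rw [h2]
      exact Valuation.map_sub_lt _ hz hx
    have h3 := map_lt_rev W h1
    have h4 : Valued.v (algebraMap K ((dn K W).adicCompletion K) c) = exp (-(n : ℤ)) := by
      rw [← hc]
      exact HeightOneSpectrum.valuedAdicCompletion_eq_valuation' (dn K W) c
    rw [Valuation.restrict_lt_iff_lt_embedding]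
    rw [h4] at h3
    exact h3.trans hn
  obtain ⟨x, hx⟩ := CompleteSpace.complete hca
  refine ⟨x, ?_⟩
  have h1 : Filter.Tendsto hov.map F (nhds (hov.map x)) :=
    (hov.continuous_map.continuousAt (x := x)).tendsto.mono_left hx
  have h2 : Filter.Tendsto hov.map F (nhds y) := Filter.tendsto_comap
  exact tendsto_nhds_unique h1 h2

/-- **The fixed field of the decomposition group is the completion of the base field.** -/
theorem fixed_range [IsGalois K N] {W : HeightOneSpectrum (𝓞 N)} {y : W.adicCompletion N}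
    (hy : ∀ g ∈ Dec K W, ac W g y = y) :
    ∃ x : (dn K W).adicCompletion K, (over_dn (K := K) W).map x = y :=
  closed_range W fun _ hε => dense_gen hy hε

end H30MG
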