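import Pool.Agent.H30.MG.Ta
import Pool.Agent.H30.MG.Lb
import Pool.Agent.H36.CY.Ld
import Pool.Agent.H36.MX.Hh

/-!
Project MG (MP_78d38b_nt): descent of the local condition `LW` from the completion of `M` to the completion of `K`
(`K < M < N`, `N / K` Galois), if the decomposition group acts through a cyclic quotient.
-/

set_option autoImplicit false
set_option linter.unusedSectionVars false
open scoped Classical

open WithZero NumberField IsDedekindDomain H76PP H36CY H36MX
open H38T1 (SC sc scu rep rep_ne sc_rep sc_mul sc_eq_zero sc_surj)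

namespace H30MG

/-- `LW` for elements. -/
theorem lw_iff {F : Type} [Field F] {x α β : F} (hx : x ≠ 0) (hα : α ≠ 0) (hβ : β ≠ 0) :
    LW (sc x) (sc α) (sc β) ↔ (IsSquare α ∨ IsSquare (α * x)) ∧ ∃ X Y : F, β * X ^ 2 + x * Y ^ 2 = 1 := by
  unfold LW
  rw [hsc_sc hβ hx, hs_eq_zero, sc_eq_zero hα]
  have h1 : sc α = sc x ↔ IsSquare (α * x) := by
    rw [← sc_eq_zero (mul_ne_zero hα hx), sc_mul hα hx]
    have h2 := SC.two_smul (sc x)
    rw [two_nsmul] at h2
    constructor
    · intro h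
      rw [h, h2]
    · intro h
      rw [← h2] at h
      exact add_right_cancel h
  rw [h1]
  rfl

variable {K M N : Type} [Field K] [NumberField K] [Field M] [NumberField M] [Field N] [NumberField N]
  [Algebra K M] [Algebra K N] [Algebra M N] [IsScalarTower K M N]

/-- The completions of `K` and `M` in the completion of `N`. -/
theorem map_map (W : HeightOneSpectrum (𝓞 N)) (x : (dn K W).adicCompletion K) :
    (over_dn (K := M) W).map ((over_mid (k := K) (k' := M) W).map x) = (over_dn (K := K) W).map x := by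
  have h := act_ext (dn K W)
    (f := fun x => (over_dn (K := M) W).map ((over_mid (k := K) (k' := M) W).map x))
    (f' := fun x => (over_dn (K := K) W).map x)
    ((over_dn (K := M) W).continuous_map.comp (over_mid (k := K) (k' := M) W).continuous_map)
    (over_dn (K := K) W).continuous_map (fun x => by
      rw [Pool.Agent.H10.Over.map_algebraMap, Pool.Agent.H10.Over.map_algebraMap,
        Pool.Agent.H10.Over.map_algebraMap, ← IsScalarTower.algebraMap_apply K M N])
  exact congrFun h x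

/-- The completion of `M` is fixed by the elements of the decomposition group which fix `M`. -/
theorem ac_fix {W : HeightOneSpectrum (𝓞 N)} {g : N ≃ₐ[K] N} (hg : g ∈ Dec K W)
    (hM : ∀ x : M, g (algebraMap M N x) = algebraMap M N x) (y : (dn M W).adicCompletion M) :
    ac W g ((over_dn (K := M) W).map y) = (over_dn (K := M) W).map y := by
  have h := act_ext (dn M W)
    (f := fun y => ac W g ((over_dn (K := M) W).map y))
    (f' := fun y => (over_dn (K := M) W).map y)
    ((ac_cont W g).comp (over_dn (K := M) W).continuous_map)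
    (over_dn (K := M) W).continuous_map (fun x => by
      rw [Pool.Agent.H10.Over.map_algebraMap, ac_coe hg, hM])
  exact congrFun h y

/-- If the decomposition group fixes `M` then the condition over the completion of `M` is the condition over the
completion of `K`. -/
theorem lo_triv [IsGalois K N] {W : HeightOneSpectrum (𝓞 N)}
    (hD : ∀ g ∈ Dec K W, ∀ x : M, g (algebraMap M N x) = algebraMap M N x)
    {ν : (dn M W).adicCompletion M} (hν : ν ≠ 0) {m α β : (dn K W).adicCompletion K}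
    (hm : (over_dn (K := K) W).map m = (over_dn (K := M) W).map ν) (hα : α ≠ 0) (hβ : β ≠ 0)
    (h : LW (sc ν) (sc ((over_mid (k := K) (k' := M) W).map α))
      (sc ((over_mid (k := K) (k' := M) W).map β))) : LW (sc m) (sc α) (sc β) := by
  have key : ∀ y : (dn M W).adicCompletion M, ∃ x : (dn K W).adicCompletion K,
      (over_dn (K := K) W).map x = (over_dn (K := M) W).map y := fun y =>
    fixed_range fun g hg => ac_fix hg (hD g hg) y
  have hinj : Function.Injective (over_dn (K := K) W).map := RingHom.injective _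
  have hm0 : m ≠ 0 := by
    rintro rfl
    rw [map_zero] at hm
    exact hν ((map_eq_zero _).1 hm.symm)
  have hα' : (over_mid (k := K) (k' := M) W).map α ≠ 0 := (map_ne_zero _).2 hα
  have hβ' : (over_mid (k := K) (k' := M) W).map β ≠ 0 := (map_ne_zero _).2 hβ
  rw [lw_iff hν hα' hβ'] at h
  rw [lw_iff hm0 hα hβ]
  obtain ⟨h1, X, Y, h2⟩ := h
  refine ⟨?_, ?_⟩
  · rcases h1 with ⟨a, ha⟩ | ⟨a, ha⟩
    · obtain ⟨a', ha'⟩ := key a
      refine Or.inl ⟨a', hinj ?_⟩
      rw [map_mul, ha', ← map_map (M := M), ha, map_mul]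
    · obtain ⟨a', ha'⟩ := key a
      refine Or.inr ⟨a', hinj ?_⟩
      rw [map_mul, map_mul, ha', hm, ← map_map (M := M), ← map_mul, ha, map_mul]
  · obtain ⟨X', hX⟩ := key X
    obtain ⟨Y', hY⟩ := key Y
    refine ⟨X', Y', hinj ?_⟩
    rw [map_add, map_mul, map_mul, map_pow, map_pow, hX, hY, hm, ← map_map (M := M), ← map_pow,
      ← map_pow, ← map_mul, ← map_mul, ← map_add, h2, map_one, map_one]

/-- The fixed field of `U` in the completion. -/
def Om (W : HeightOneSpectrum (𝓞 N)) (U : Subgroup (N ≃ₐ[K] N)) : Subfield (W.adicCompletion N) where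
  carrier := {y | ∀ h ∈ Dec K W, h ∈ U → ac W h y = y}
  mul_mem' := by
    intro x y hx hy h h1 h2
    rw [map_mul, hx h h1 h2, hy h h1 h2]
  one_mem' := fun h _ _ => map_one _
  add_mem' := by
    intro x y hx hy h h1 h2
    rw [map_add, hx h h1 h2, hy h h1 h2]
  zero_mem' := fun h _ _ => map_zero _
  neg_mem' := by
    intro x hx h h1 h2
    rw [map_neg, hx h h1 h2]
  inv_mem' := by
    intro x hx h h1 h2
    rw [map_inv₀, hx h h1 h2]

theorem om_ac {W : HeightOneSpectrum (𝓞 N)} {U : Subgroup (N ≃ₐ[K] N)} [hU : U.Normal]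
    {g : N ≃ₐ[K] N} (hg : g ∈ Dec K W) {y : W.adicCompletion N} (hy : y ∈ Om W U) :
    ac W g y ∈ Om W U := by
  intro h h1 h2
  have h3 : g⁻¹ * h * g ∈ U := by
    have := hU.conj_mem h h2 g⁻¹
    rwa [inv_inv] at this
  have h4 : g⁻¹ * h * g ∈ Dec K W :=
    (Dec K W).mul_mem ((Dec K W).mul_mem ((Dec K W).inv_mem hg) h1) hg
  rw [← ac_mul h1 hg]
  have h5 : h * g = g * (g⁻¹ * h * g) := by group
  rw [h5, ac_mul hg h4, hy _ h4 h3]

/-- The action on the fixed field. -/
noncomputable def phU (W : HeightOneSpectrum (𝓞 N)) (U : Subgroup (N ≃ₐ[K] N)) [U.Normal]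
    {g : N ≃ₐ[K] N} (hg : g ∈ Dec K W) : Om W U →+* Om W U :=
  ((ac W g).comp (Om W U).subtype).codRestrict (Om W U) fun y => om_ac hg y.2

theorem phU_coe {W : HeightOneSpectrum (𝓞 N)} {U : Subgroup (N ≃ₐ[K] N)} [U.Normal]
    {g : N ≃ₐ[K] N} (hg : g ∈ Dec K W) (y : Om W U) : ((phU W U hg y : Om W U) : W.adicCompletion N) =
      ac W g y := rfl

theorem phU_iter {W : HeightOneSpectrum (𝓞 N)} {U : Subgroup (N ≃ₐ[K] N)} [U.Normal]
    {g : N ≃ₐ[K] N} (hg : g ∈ Dec K W) (n : ℕ) (y : Om W U) :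
    (((phU W U hg)^[n] y : Om W U) : W.adicCompletion N) = ac W (g ^ n) y := by
  rw [ac_pow hg]
  induction n with
  | zero => rfl
  | succ n ih => rw [Function.iterate_succ_apply', Function.iterate_succ_apply', phU_coe, ih]

/-- **The local descent** in the cyclic case. -/
theorem lo_main [IsGalois K N] {W : HeightOneSpectrum (𝓞 N)} (U : Subgroup (N ≃ₐ[K] N)) [U.Normal]
    (hUM : ∀ h ∈ U, ∀ x : M, h (algebraMap M N x) = algebraMap M N x)
    {g : N ≃ₐ[K] N} (hg : g ∈ Dec K W)
    (hgen : ∀ h ∈ Dec K W, ∃ i : ℕ, ∃ c ∈ U, h = g ^ i * c) {r : ℕ}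
    (hgr : ∀ x : M, (g ^ 2 ^ r) (algebraMap M N x) = algebraMap M N x)
    {ν : (dn M W).adicCompletion M} {ρ : W.adicCompletion N} (hρ0 : ρ ≠ 0)
    (hρν : ρ ^ 2 = (over_dn (K := M) W).map ν) (hUρ : ∀ h ∈ Dec K W, h ∈ U → ac W h ρ = ρ)
    (hgρ : ac W (g ^ 2 ^ r) ρ = -ρ) {ρ₀ : W.adicCompletion N} (hρ₀ : ρ₀ ≠ 0)
    (hUρ₀ : ∀ h ∈ Dec K W, h ∈ U → ac W h ρ₀ = ρ₀) (hgρ₀ : ac W g ρ₀ = -ρ₀)
    {m α β : (dn K W).adicCompletion K} (hm : (over_dn (K := K) W).map m = ρ₀ ^ 2)
    (hα : α ≠ 0) (hβ : β ≠ 0)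
    (h : LW (sc ν) (sc ((over_mid (k := K) (k' := M) W).map α))
      (sc ((over_mid (k := K) (k' := M) W).map β))) : LW (sc m) (sc α) (sc β) := by
  have _ : CharZero (W.adicCompletion N) := char_zero W
  have hcz : CharZero (Om W U) := charZero_of_injective_algebraMap
    (R := ℚ) (algebraMap ℚ (Om W U)).injective
  have hinj : Function.Injective (over_dn (K := K) W).map := RingHom.injective _
  have hν : ν ≠ 0 := by
    rintro rfl
    rw [map_zero] at hρν
    exact hρ0 (pow_eq_zero_iff two_ne_zero |>.1 hρν)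
  have hm0 : m ≠ 0 := by
    rintro rfl
    rw [map_zero] at hm
    exact hρ₀ (pow_eq_zero_iff two_ne_zero |>.1 hm.symm)
  have hα' : (over_mid (k := K) (k' := M) W).map α ≠ 0 := (map_ne_zero _).2 hα
  have hβ' : (over_mid (k := K) (k' := M) W).map β ≠ 0 := (map_ne_zero _).2 hβ
  rw [lw_iff hν hα' hβ'] at h
  rw [lw_iff hm0 hα hβ]
  -- elements of the fixed field
  have hM : ∀ y : (dn M W).adicCompletion M, (over_dn (K := M) W).map y ∈ Om W U := fun y h h1 h2 =>
    ac_fix h1 (hUM h h2) y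
  have hMg : ∀ y : (dn M W).adicCompletion M, (phU W U hg)^[2 ^ r] ⟨_, hM y⟩ = ⟨_, hM y⟩ := fun y =>
    Subtype.ext (by
      rw [phU_iter]
      exact ac_fix (pow_mem hg _) hgr y)
  have hK : ∀ x : (dn K W).adicCompletion K, ∀ h ∈ Dec K W,
      ac W h ((over_dn (K := K) W).map x) = (over_dn (K := K) W).map x := fun x h h1 =>
    ac_fix (M := K) h1 (fun x => h.commutes x) x
  have hKm : ∀ x : (dn K W).adicCompletion K, (over_dn (K := K) W).map x ∈ Om W U := fun x h h1 _ =>
    hK x h h1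
  -- the converse: fixed elements come from `K`
  have key : ∀ y : Om W U, phU W U hg y = y → ∃ x : (dn K W).adicCompletion K,
      (over_dn (K := K) W).map x = (y : W.adicCompletion N) := by
    intro y hy
    have hy' : ac W g (y : W.adicCompletion N) = y := congrArg Subtype.val hy
    refine fixed_range fun h hh => ?_
    obtain ⟨i, c, hc, hic⟩ := hgen h hh
    have hcD : c ∈ Dec K W := by
      have h1 : c = (g ^ i)⁻¹ * h := by rw [hic]; group
      rw [h1]
      exact (Dec K W).mul_mem ((Dec K W).inv_mem (pow_mem hg i)) hh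
    rw [hic, ac_mul (pow_mem hg i) hcD, y.2 c hcD hc, ac_pow hg]
    exact Function.iterate_fixed hy' i
  obtain ⟨h1, X, Y, h2⟩ := h
  have hab : ∀ x : (dn K W).adicCompletion K, (over_dn (K := M) W).map
      ((over_mid (k := K) (k' := M) W).map x) = (over_dn (K := K) W).map x := fun x => map_map W x
  have hLF : LF ((phU W U hg)^[2 ^ r]) (⟨ρ, hUρ⟩ : Om W U) ⟨_, hKm α⟩ ⟨_, hKm β⟩ := by
    refine ⟨?_, ⟨_, hM X⟩, ⟨_, hM Y⟩, hMg X, hMg Y, ?_⟩
    · rcases h1 with ⟨a, ha⟩ | ⟨a, ha⟩
      · refine ⟨⟨_, hM a⟩, hMg a, Or.inl (Subtype.ext ?_)⟩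
        change (over_dn (K := K) W).map α = (over_dn (K := M) W).map a ^ 2
        rw [← hab, ha, map_mul, sq]
      · refine ⟨⟨_, hM a⟩, hMg a, Or.inr (Subtype.ext ?_)⟩
        change (over_dn (K := K) W).map α * ρ ^ 2 = (over_dn (K := M) W).map a ^ 2
        rw [hρν, ← hab, ← map_mul, ha, map_mul, sq]
    · refine Subtype.ext ?_
      change (over_dn (K := K) W).map β * (over_dn (K := M) W).map X ^ 2 +
        ρ ^ 2 * (over_dn (K := M) W).map Y ^ 2 = 1
      rw [hρν, ← hab, ← map_pow, ← map_pow, ← map_mul, ← map_mul, ← map_add, h2, map_one]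
  have hr := lf_all (phU W U hg) (α := ⟨_, hKm α⟩) (β := ⟨_, hKm β⟩)
    (fun h0 => hα ((map_eq_zero (over_dn (K := K) W).map).1 (congrArg Subtype.val h0)))
    (Subtype.ext (hK α g hg)) (Subtype.ext (hK β g hg)) r (ρ := ⟨ρ, hUρ⟩) (ρ₀ := ⟨ρ₀, hUρ₀⟩)
    (fun h0 => hρ0 (congrArg Subtype.val h0))
    (Subtype.ext (by rw [phU_iter]; exact hgρ)) hLF (fun h0 => hρ₀ (congrArg Subtype.val h0))
    (Subtype.ext hgρ₀)
  obtain ⟨⟨a, ha, hsq⟩, X', Y', hX, hY, hc⟩ := hr
  refine ⟨?_, ?_⟩
  · obtain ⟨a', ha'⟩ := key a ha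
    rcases hsq with h3 | h3
    · refine Or.inl ⟨a', hinj ?_⟩
      rw [map_mul, ha', ← sq]
      exact congrArg Subtype.val h3
    · refine Or.inr ⟨a', hinj ?_⟩
      rw [map_mul, map_mul, ha', hm, ← sq]
      exact congrArg Subtype.val h3
  · obtain ⟨X₀, hX₀⟩ := key X' hX
    obtain ⟨Y₀, hY₀⟩ := key Y' hY
    refine ⟨X₀, Y₀, hinj ?_⟩
    rw [map_add, map_mul, map_mul, map_pow, map_pow, hX₀, hY₀, hm, map_one]
    exact congrArg Subtype.val hc

end H30MG
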