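import Pool.Agent.H30.MG.Lo
import Pool.Agent.H36.MX.Bg
import Pool.Agent.H36.MX.He

/-!
Project MG (MP_78d38b_nt): the local class of a pair `(M, μ)` at a place `u` of `K`, the interface `LocCl`, and its
values at the places above two and at the auxiliary places.
-/

set_option autoImplicit false
set_option linter.unusedSectionVars false
open scoped Classical

open WithZero NumberField IsDedekindDomain H76PP H36CY H36MX H38RT
open H38T1 (SC sc scu rep rep_ne sc_rep sc_mul sc_eq_zero sc_surj OddP)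
open H76MX (Kv)

namespace H30MG

/-- `x` is a local class at `u` for the pair `(M, μ)`: at some place `w` of `M` above `u` the Kummer classes (at the
roots `e 0`, `e 2`) of the points of the twist by `μ` over `M_w`, if they come from classes over `K_u`, satisfy
`LW x`. -/
def LocCl {K M : Type} [Field K] [NumberField K] [Field M] [NumberField M] [Algebra K M]
    (u : HeightOneSpectrum (𝓞 K)) (e : Fin 3 → Kv u) (μ : M) (x : SC (Kv u)) : Prop :=
  ∃ (w : HeightOneSpectrum (𝓞 M)) (hw : Pool.Agent.H10.Over u w), ∀ E z : Kv w, E ≠ 0 →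
    IsSquare (E * algebraMap M (Kv w) μ) → (∀ j, z ≠ hw.map (e j)) →
    IsSquare (E * ((z - hw.map (e 0)) * (z - hw.map (e 1)) * (z - hw.map (e 2)))) →
    ∀ α β : Kv u, α ≠ 0 → β ≠ 0 → sc (hw.map α) = sc (E * (z - hw.map (e 0))) →
      sc (hw.map β) = sc (E * (z - hw.map (e 2))) → LW x (sc α) (sc β)

theorem Spl.map' {F F' : Type} [Field F] [Field F'] (f : F →+* F') {a b : F} {e : Fin 3 → F}
    (h : Spl a b e) : Spl (f a) (f b) (fun j => f (e j)) where
  s1 := by rw [← map_add, ← map_add, h.s1, map_zero]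
  s2 := by rw [← map_mul, ← map_mul, ← map_mul, ← map_add, ← map_add, h.s2]
  s3 := by rw [← map_mul, ← map_mul, h.s3, map_neg]
  ne01 := fun h1 => h.ne01 (f.injective h1)
  ne02 := fun h1 => h.ne02 (f.injective h1)
  ne12 := fun h1 => h.ne12 (f.injective h1)
  sq0 := by
    rw [← map_sub, ← map_sub, ← map_mul]
    exact h.sq0.map f
  sq2 := by
    rw [← map_sub, ← map_sub, ← map_mul]
    exact h.sq2.map f

section Val

variable {K L : Type} [Field K] [NumberField K] [Field L] [NumberField L] [Algebra K L]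
  {v : HeightOneSpectrum (𝓞 K)} {w : HeightOneSpectrum (𝓞 L)}

theorem val_le_of (h : Pool.Agent.H10.Over v w) {x y : v.adicCompletion K}
    (hxy : Valued.v (h.map x) ≤ Valued.v (h.map y)) : Valued.v x ≤ Valued.v y := by
  by_contra hc
  rw [not_le] at hc
  exact absurd (map_lt h hc) (not_lt.2 hxy)

theorem val_eq_of (h : Pool.Agent.H10.Over v w) {x y : v.adicCompletion K}
    (hxy : Valued.v x = Valued.v y) : Valued.v (h.map x) = Valued.v (h.map y) :=
  le_antisymm (H36LG.map_le' h hxy.le) (H36LG.map_le' h hxy.ge)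

theorem val_one_of (h : Pool.Agent.H10.Over v w) {x : v.adicCompletion K}
    (hx : Valued.v x = 1) : Valued.v (h.map x) = 1 := by
  have h1 := val_eq_of h (x := x) (y := 1) (by rw [hx, map_one])
  rw [h1, map_one, map_one]

theorem val_lt_one_of (h : Pool.Agent.H10.Over v w) {x : v.adicCompletion K}
    (hx : Valued.v x < 1) : Valued.v (h.map x) < 1 := by
  have h1 := map_lt h (x := x) (y := 1) (by rw [map_one]; exact hx)
  rwa [map_one, map_one] at h1

end Val

variable {K M N : Type} [Field K] [NumberField K] [Field M] [NumberField M] [Field N] [NumberField N]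
  [Algebra K M] [Algebra K N] [Algebra M N] [IsScalarTower K M N]

/-- In the trivial case the completion of `M` is that of `K`. -/
theorem triv_surj [IsGalois K N] {W : HeightOneSpectrum (𝓞 N)}
    (hD : ∀ g ∈ Dec K W, ∀ x : M, g (algebraMap M N x) = algebraMap M N x)
    (y : (dn M W).adicCompletion M) : ∃ x : (dn K W).adicCompletion K,
      (over_mid (k := K) (k' := M) W).map x = y := by
  obtain ⟨x, hx⟩ := fixed_range (K := K) (y := (over_dn (K := M) W).map y)
    fun g hg => ac_fix hg (hD g hg) y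
  refine ⟨x, (RingHom.injective (over_dn (K := M) W).map) ?_⟩
  rw [map_map, hx]

/-- The unramified class is preserved in the trivial case. -/
theorem unr_up [IsGalois K N] {W : HeightOneSpectrum (𝓞 N)}
    (hD : ∀ g ∈ Dec K W, ∀ x : M, g (algebraMap M N x) = algebraMap M N x)
    {g0 : (dn K W).adicCompletion K} (h : Unr g0) :
    Unr ((over_mid (k := K) (k' := M) W).map g0) := by
  obtain ⟨ρ, h1, h2, h3⟩ := h
  refine ⟨(over_mid (k := K) (k' := M) W).map ρ, ?_, ?_, ?_⟩
  · have h4 := H36LG.map_le (over_mid (k := K) (k' := M) W) h1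
    exact h4
  · intro t ht
    obtain ⟨t', rfl⟩ := triv_surj hD t
    rw [← map_pow, ← map_add, ← map_sub]
    refine val_one_of _ (h2 t' ?_)
    have h5 : Valued.v ((over_mid (k := K) (k' := M) W).map t') ≤
        Valued.v ((over_mid (k := K) (k' := M) W).map 1) := by
      rw [map_one, map_one]
      exact ht
    have h6 := val_le_of _ h5
    rwa [map_one] at h6
  · rw [h3, map_add, map_mul, map_one, map_ofNat]

/-- If `μ = ρ^2` with `ρ` fixed by the decomposition group (and also `M`) then `μ` is a square of the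
completion. -/
theorem triv_sq [IsGalois K N] {W : HeightOneSpectrum (𝓞 N)} {μ : M} {ρ : N}
    (hρ : ρ ^ 2 = algebraMap M N μ) (hD : ∀ g ∈ Dec K W, g ρ = ρ) :
    IsSquare (algebraMap M ((dn M W).adicCompletion M) μ) := by
  obtain ⟨x, hx⟩ := fixed_range (K := K) (W := W) (y := algebraMap N (W.adicCompletion N) ρ)
    fun g hg => by rw [ac_coe hg, hD g hg]
  refine ⟨(over_mid (k := K) (k' := M) W).map x, RingHom.injective (over_dn (K := M) W).map ?_⟩
  rw [map_mul, map_map, hx, Pool.Agent.H10.Over.map_algebraMap, ← hρ, map_pow, sq]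

/-- `μ` is not a square of the completion of `M` if some element of the decomposition group fixes `M` and
changes the sign of `ρ`. -/
theorem not_sq {W : HeightOneSpectrum (𝓞 N)} {μ : M} {ρ : N} (hρ0 : ρ ≠ 0)
    (hρ : ρ ^ 2 = algebraMap M N μ) {g : N ≃ₐ[K] N} (hg : g ∈ Dec K W)
    (hgM : ∀ x : M, g (algebraMap M N x) = algebraMap M N x) (hgρ : g ρ = -ρ) :
    ¬ IsSquare (algebraMap M ((dn M W).adicCompletion M) μ) := by
  rintro ⟨b, hb⟩
  have _ := char_zero W
  have h1 : (algebraMap N (W.adicCompletion N) ρ) ^ 2 = (over_dn (K := M) W).map b ^ 2 := by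
    rw [← map_pow, hρ, ← Pool.Agent.H10.Over.map_algebraMap (over_dn (K := M) W), hb, map_mul, sq]
  have h2 : ac W g (algebraMap N (W.adicCompletion N) ρ) = algebraMap N (W.adicCompletion N) ρ := by
    rcases sq_eq_sq_iff_eq_or_eq_neg.1 h1 with h | h
    · rw [h]
      exact ac_fix hg hgM b
    · rw [h, map_neg]
      rw [ac_fix hg hgM b]
  rw [ac_coe hg, hgρ, map_neg] at h2
  have h3 : algebraMap N (W.adicCompletion N) ρ ≠ 0 := (map_ne_zero _).2 hρ0
  have h4 : 2 * algebraMap N (W.adicCompletion N) ρ = 0 := by linear_combination -h2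
  exact (mul_ne_zero two_ne_zero h3) h4

section Two

variable [IsGalois K N] {W : HeightOneSpectrum (𝓞 N)} {a b : (dn K W).adicCompletion K}
  {e : Fin 3 → (dn K W).adicCompletion K}

theorem sc_sq_mul {F : Type} [Field F] {E μ c : F} (hE : E ≠ 0) (hμ : μ ≠ 0) (hc : c ≠ 0)
    (h : IsSquare (E * μ)) : sc (E * c) = sc (μ * c) := by
  rw [sc_mul hE hc, sc_mul hμ hc, sc_eq_of_sq hE hμ h]

private theorem two_lt (h2 : (dn K W).valuation K 2 < 1) : (dn M W).valuation M 2 < 1 := by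
  have h1 := v_lt_one (over_mid (k := K) (k' := M) W) h2
  rwa [map_ofNat] at h1

/-- Above two, trivial decomposition. -/
theorem locCl_two_triv (h2 : (dn K W).valuation K 2 < 1) (hs : Spl a b e)
    (hδ : IsSquare (e 1 - e 0)) (h1 : Valued.v (e 1 - e 0) = 1)
    (h16 : Valued.v (e 2 - e 1) = Valued.v (16 : (dn K W).adicCompletion K)) {μ : M} {ρ : N}
    (hρ0 : ρ ≠ 0) (hρ : ρ ^ 2 = algebraMap M N μ)
    (hD : ∀ g ∈ Dec K W, ∀ x : M, g (algebraMap M N x) = algebraMap M N x)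
    (hDρ : ∀ g ∈ Dec K W, g ρ = ρ) {g0 : (dn K W).adicCompletion K} (hg0 : Unr g0) :
    LocCl (dn K W) e μ (sc g0) := by
  refine ⟨dn M W, over_mid W, fun E z hE hEμ hz hsq α β hα hβ h3 h4 => ?_⟩
  have hμ0 : μ ≠ 0 := by
    rintro rfl
    rw [map_zero] at hρ
    exact hρ0 (pow_eq_zero_iff two_ne_zero |>.1 hρ)
  have hμ0' : algebraMap M ((dn M W).adicCompletion M) μ ≠ 0 := (map_ne_zero _).2 hμ0
  have hEsq : IsSquare E := by
    obtain ⟨t, ht⟩ := triv_sq hρ hDρ
    obtain ⟨s, hs⟩ := hEμ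
    have ht0 : t ≠ 0 := by
      rintro rfl
      rw [mul_zero] at ht
      exact hμ0' ht
    refine ⟨s / t, ?_⟩
    rw [ht] at hs
    field_simp
    linear_combination hs
  have h2' := two_lt (M := M) h2
  have e16 : (over_mid (k := K) (k' := M) W).map (16 : (dn K W).adicCompletion K) = 16 :=
    map_ofNat _ _
  have h5 := cond_two h2' (hf_two h2') (Spl.map' (over_mid (k := K) (k' := M) W).map hs)
    (by rw [← map_sub]; exact hδ.map _) (by rw [← map_sub]; exact val_one_of _ h1)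
    (by rw [← map_sub, ← e16]; exact val_eq_of _ h16) hE hz hsq (unr_up hD hg0)
  rw [if_pos hEsq] at h5
  rw [← h3, ← h4] at h5
  have hg00 : g0 ≠ 0 := by
    intro h
    have h1 := unr_one h2 hg0
    rw [h, map_zero] at h1
    exact zero_ne_one h1
  exact lo_triv hD ((map_ne_zero _).2 hg00) (map_map W g0).symm hα hβ h5

/-- Above two, cyclic decomposition. -/
theorem locCl_two_cyc (h2 : (dn K W).valuation K 2 < 1) (hs : Spl a b e)
    (hδ : IsSquare (e 1 - e 0)) (h1 : Valued.v (e 1 - e 0) = 1)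
    (h16 : Valued.v (e 2 - e 1) = Valued.v (16 : (dn K W).adicCompletion K)) {μ : M} {ρ : N}
    (hρ0 : ρ ≠ 0) (hρ : ρ ^ 2 = algebraMap M N μ) (U : Subgroup (N ≃ₐ[K] N)) [U.Normal]
    (hUM : ∀ h ∈ U, ∀ x : M, h (algebraMap M N x) = algebraMap M N x) (hUρ : ∀ h ∈ U, h ρ = ρ)
    {g : N ≃ₐ[K] N} (hg : g ∈ Dec K W)
    (hgen : ∀ h ∈ Dec K W, ∃ i : ℕ, ∃ c ∈ U, h = g ^ i * c) {r : ℕ}
    (hgr : ∀ x : M, (g ^ 2 ^ r) (algebraMap M N x) = algebraMap M N x)
    (hgρ : (g ^ 2 ^ r) ρ = -ρ) {ρ₀ : N} (hρ₀ : ρ₀ ≠ 0) (hUρ₀ : ∀ h ∈ Dec K W, h ∈ U → h ρ₀ = ρ₀)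
    (hgρ₀ : g ρ₀ = -ρ₀) {m : (dn K W).adicCompletion K}
    (hm : (over_dn (K := K) W).map m = algebraMap N (W.adicCompletion N) ρ₀ ^ 2) :
    LocCl (dn K W) e μ (sc m) := by
  refine ⟨dn M W, over_mid W, fun E z hE hEμ hz hsq α β hα hβ h3 h4 => ?_⟩
  have hμ0 : μ ≠ 0 := by
    rintro rfl
    rw [map_zero] at hρ
    exact hρ0 (pow_eq_zero_iff two_ne_zero |>.1 hρ)
  have hμ0' : algebraMap M ((dn M W).adicCompletion M) μ ≠ 0 := (map_ne_zero _).2 hμ0
  have hns := not_sq hρ0 hρ (pow_mem hg _) hgr hgρ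
  have hEsq : ¬ IsSquare E := by
    rintro ⟨t, ht⟩
    apply hns
    obtain ⟨s, hs⟩ := hEμ
    have ht0 : t ≠ 0 := by
      rintro rfl
      rw [mul_zero] at ht
      exact hE ht
    refine ⟨s / t, ?_⟩
    rw [ht] at hs
    field_simp
    linear_combination hs
  have h2' := two_lt (M := M) h2
  have e16 : (over_mid (k := K) (k' := M) W).map (16 : (dn K W).adicCompletion K) = 16 :=
    map_ofNat _ _
  obtain ⟨g1, hg1⟩ := exists_unr h2'
  have h5 := cond_two h2' (hf_two h2') (Spl.map' (over_mid (k := K) (k' := M) W).map hs)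
    (by rw [← map_sub]; exact hδ.map _) (by rw [← map_sub]; exact val_one_of _ h1)
    (by rw [← map_sub, ← e16]; exact val_eq_of _ h16) hE hz hsq hg1
  rw [if_neg hEsq, sc_eq_of_sq hE hμ0' hEμ, ← h3, ← h4] at h5
  refine lo_main U hUM hg hgen hgr (ρ := algebraMap N (W.adicCompletion N) ρ)
    (ρ₀ := algebraMap N (W.adicCompletion N) ρ₀) ((map_ne_zero _).2 hρ0) ?_
    (fun h h1 h2 => by rw [ac_coe h1, hUρ h h2]) (by rw [ac_coe (pow_mem hg _), hgρ, map_neg])
    ((map_ne_zero _).2 hρ₀) (fun h h1 h2 => by rw [ac_coe h1, hUρ₀ h h1 h2])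
    (by rw [ac_coe hg, hgρ₀, map_neg]) hm hα hβ h5
  rw [← map_pow, hρ, Pool.Agent.H10.Over.map_algebraMap]

end Two

section Odd

variable [IsGalois K N] {W : HeightOneSpectrum (𝓞 N)} {a b : (dn K W).adicCompletion K}
  {e : Fin 3 → (dn K W).adicCompletion K}

private theorem odd_up (hu : OddP (dn K W)) : OddP (dn M W) := by
  have h1 := v_one (over_mid (k := K) (k' := M) W) (x := (2 : K)) hu
  rw [map_ofNat] at h1
  exact h1

/-- The class over the completion of `M` at an odd place. -/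
private theorem odd_cond (hu : OddP (dn K W)) (hs : Spl a b e) (h1 : Valued.v (e 1 - e 0) = 1)
    (hτ : Valued.v (e 2 - e 1) < 1) {μ : M} (hμ0 : μ ≠ 0) {n : ℤ}
    (hμv : (dn M W).valuation M μ = exp (2 * n)) {E z : (dn M W).adicCompletion M} (hE : E ≠ 0)
    (hEμ : IsSquare (E * algebraMap M ((dn M W).adicCompletion M) μ))
    (hz : ∀ j, z ≠ (over_mid (k := K) (k' := M) W).map (e j))
    (hsq : IsSquare (E * ((z - (over_mid (k := K) (k' := M) W).map (e 0)) *
      (z - (over_mid (k := K) (k' := M) W).map (e 1)) *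
      (z - (over_mid (k := K) (k' := M) W).map (e 2))))) :
    LW (sc (algebraMap M ((dn M W).adicCompletion M) μ *
        (over_mid (k := K) (k' := M) W).map (e 1 - e 0)))
      (sc (E * (z - (over_mid (k := K) (k' := M) W).map (e 0))))
      (sc (E * (z - (over_mid (k := K) (k' := M) W).map (e 2)))) := by
  have hμ0' : algebraMap M ((dn M W).adicCompletion M) μ ≠ 0 := (map_ne_zero _).2 hμ0
  have hEv : ∃ k : ℤ, Valued.v E = exp (2 * k) := by
    obtain ⟨s, hs⟩ := hEμ
    have hs0 : s ≠ 0 := by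
      rintro rfl
      rw [mul_zero] at hs
      exact (mul_ne_zero hE hμ0') hs
    have hv := congrArg Valued.v hs
    rw [map_mul, map_mul, val_coe, hμv] at hv
    have hvs : Valued.v s ≠ 0 := (Valuation.ne_zero_iff _).2 hs0
    have hvE : Valued.v E ≠ 0 := (Valuation.ne_zero_iff _).2 hE
    rw [← exp_log hvs, ← exp_log hvE, ← exp_add, ← exp_add] at hv
    have hv' := WithZero.exp_injective hv
    refine ⟨log (Valued.v s) - n, ?_⟩
    rw [← exp_log hvE]
    congr 1
    linarith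
  obtain ⟨k, hk⟩ := hEv
  have h5 := cond_odd (odd_up (M := M) hu) (Spl.map' (over_mid (k := K) (k' := M) W).map hs)
    (by rw [← map_sub]; exact val_one_of _ h1) (by rw [← map_sub]; exact val_lt_one_of _ hτ)
    hE hk hz hsq
  have he : (over_mid (k := K) (k' := M) W).map (e 1 - e 0) ≠ 0 := by
    refine (map_ne_zero _).2 (sub_ne_zero.2 hs.ne01.symm)
  have h6 : sc (E * ((over_mid (k := K) (k' := M) W).map (e 1) -
      (over_mid (k := K) (k' := M) W).map (e 0))) =
      sc (algebraMap M ((dn M W).adicCompletion M) μ *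
        (over_mid (k := K) (k' := M) W).map (e 1 - e 0)) := by
    rw [← map_sub]
    exact sc_sq_mul hE hμ0' he hEμ
  rw [h6] at h5
  exact h5

/-- Auxiliary place, the decomposition group fixes `M`. -/
theorem locCl_odd_one (hu : OddP (dn K W)) (hs : Spl a b e) (h1 : Valued.v (e 1 - e 0) = 1)
    (hτ : Valued.v (e 2 - e 1) < 1) {μ : M} {ρ : N} (hρ0 : ρ ≠ 0) (hρ : ρ ^ 2 = algebraMap M N μ)
    {n : ℤ} (hμv : (dn M W).valuation M μ = exp (2 * n))
    (hD : ∀ g ∈ Dec K W, ∀ x : M, g (algebraMap M N x) = algebraMap M N x)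
    {m : (dn K W).adicCompletion K}
    (hm : (over_dn (K := K) W).map m = algebraMap N (W.adicCompletion N) ρ ^ 2) :
    LocCl (dn K W) e μ (sc (m * (e 1 - e 0))) := by
  refine ⟨dn M W, over_mid W, fun E z hE hEμ hz hsq α β hα hβ h3 h4 => ?_⟩
  have hμ0 : μ ≠ 0 := by
    rintro rfl
    rw [map_zero] at hρ
    exact hρ0 (pow_eq_zero_iff two_ne_zero |>.1 hρ)
  have h5 := odd_cond hu hs h1 hτ hμ0 hμv hE hEμ hz hsq
  rw [← h3, ← h4] at h5
  have he : (over_mid (k := K) (k' := M) W).map (e 1 - e 0) ≠ 0 :=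
    (map_ne_zero _).2 (sub_ne_zero.2 hs.ne01.symm)
  refine lo_triv hD (mul_ne_zero ((map_ne_zero _).2 hμ0) he) ?_ hα hβ h5
  rw [map_mul, map_mul, hm, map_map, Pool.Agent.H10.Over.map_algebraMap, ← hρ, map_pow]

/-- Auxiliary place, the decomposition group does not fix `M`. -/
theorem locCl_odd_cyc (hu : OddP (dn K W)) (hs : Spl a b e) (h1 : Valued.v (e 1 - e 0) = 1)
    (hτ : Valued.v (e 2 - e 1) < 1) {μ : M} {ρ : N}
    (hρ0 : ρ ≠ 0) (hρ : ρ ^ 2 = algebraMap M N μ)
    {n : ℤ} (hμv : (dn M W).valuation M μ = exp (2 * n)) (U : Subgroup (N ≃ₐ[K] N)) [U.Normal]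
    (hUM : ∀ h ∈ U, ∀ x : M, h (algebraMap M N x) = algebraMap M N x) (hUρ : ∀ h ∈ U, h ρ = ρ)
    {g : N ≃ₐ[K] N} (hg : g ∈ Dec K W)
    (hgen : ∀ h ∈ Dec K W, ∃ i : ℕ, ∃ c ∈ U, h = g ^ i * c) {r : ℕ}
    (hgr : ∀ x : M, (g ^ 2 ^ (r + 1)) (algebraMap M N x) = algebraMap M N x)
    (hgρ : (g ^ 2 ^ (r + 1)) ρ = -ρ) {ρ₀ : N} (hρ₀ : ρ₀ ≠ 0)
    (hUρ₀ : ∀ h ∈ Dec K W, h ∈ U → h ρ₀ = ρ₀)
    (hgρ₀ : g ρ₀ = -ρ₀) {m : (dn K W).adicCompletion K}
    (hm : (over_dn (K := K) W).map m = algebraMap N (W.adicCompletion N) ρ₀ ^ 2)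
    (hem : IsSquare (e 1 - e 0) ∨ IsSquare ((e 1 - e 0) * m)) :
    LocCl (dn K W) e μ (sc m) := by
  refine ⟨dn M W, over_mid W, fun E z hE hEμ hz hsq α β hα hβ h3 h4 => ?_⟩
  have hμ0 : μ ≠ 0 := by
    rintro rfl
    rw [map_zero] at hρ
    exact hρ0 (pow_eq_zero_iff two_ne_zero |>.1 hρ)
  have h5 := odd_cond hu hs h1 hτ hμ0 hμv hE hEμ hz hsq
  rw [← h3, ← h4] at h5
  have he0 : e 1 - e 0 ≠ 0 := sub_ne_zero.2 hs.ne01.symm
  have hm0 : m ≠ 0 := by
    rintro rfl
    rw [map_zero] at hm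
    exact hρ₀ ((map_eq_zero _).1 (pow_eq_zero_iff two_ne_zero |>.1 hm.symm))
  -- a square root of `e 1 - e 0`
  have hfixK : ∀ (x : (dn K W).adicCompletion K) (h : N ≃ₐ[K] N), h ∈ Dec K W →
      ac W h ((over_dn (K := K) W).map x) = (over_dn (K := K) W).map x := fun x h h1 =>
    ac_fix (M := K) h1 (fun x => h.commutes x) x
  have hiter : ∀ y : W.adicCompletion N, ac W g y = -y → ac W (g ^ 2 ^ (r + 1)) y = y := by
    intro y hy
    have h2 : ac W (g ^ 2) y = y := by
      rw [sq, ac_mul hg hg, hy, map_neg, hy, neg_neg]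
    rw [pow_succ', pow_mul, ac_pow (pow_mem hg 2)]
    exact Function.iterate_fixed h2 _
  obtain ⟨t, ht0, ht2, htU, htg⟩ : ∃ t : W.adicCompletion N, t ≠ 0 ∧
      t ^ 2 = (over_dn (K := K) W).map (e 1 - e 0) ∧
      (∀ h ∈ Dec K W, h ∈ U → ac W h t = t) ∧ ac W (g ^ 2 ^ (r + 1)) t = t := by
    rcases hem with ⟨c, hc⟩ | ⟨c, hc⟩
    · refine ⟨(over_dn (K := K) W).map c, ?_, ?_, fun h h1 _ => hfixK c h h1,
        hfixK c _ (pow_mem hg _)⟩
      · refine (map_ne_zero _).2 ?_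
        rintro rfl
        rw [mul_zero] at hc
        exact he0 hc
      · rw [hc, map_mul, sq]
    · have hρ₀' : algebraMap N (W.adicCompletion N) ρ₀ ≠ 0 := (map_ne_zero _).2 hρ₀
      have hc0 : c ≠ 0 := by
        rintro rfl
        rw [mul_zero] at hc
        exact (mul_ne_zero he0 hm0) hc
      refine ⟨(over_dn (K := K) W).map c / algebraMap N (W.adicCompletion N) ρ₀,
        div_ne_zero ((map_ne_zero _).2 hc0) hρ₀', ?_, ?_, ?_⟩
      · rw [div_pow, ← hm, ← map_pow, sq, ← hc, map_mul]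
        have hm' : (over_dn (K := K) W).map m ≠ 0 := (map_ne_zero _).2 hm0
        field_simp
      · intro h h1 h2
        rw [map_div₀, hfixK c h h1, ac_coe h1, hUρ₀ h h1 h2]
      · rw [map_div₀, hfixK c _ (pow_mem hg _),
          hiter _ (by rw [ac_coe hg, hgρ₀, map_neg])]
  refine lo_main U hUM hg hgen hgr (ρ := algebraMap N (W.adicCompletion N) ρ * t)
    (ρ₀ := algebraMap N (W.adicCompletion N) ρ₀) (mul_ne_zero ((map_ne_zero _).2 hρ0) ht0) ?_
    (fun h h1 h2 => by rw [map_mul, ac_coe h1, hUρ h h2, htU h h1 h2])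
    (by rw [map_mul, ac_coe (pow_mem hg _), hgρ, map_neg, htg, neg_mul])
    ((map_ne_zero _).2 hρ₀) (fun h h1 h2 => by rw [ac_coe h1, hUρ₀ h h1 h2])
    (by rw [ac_coe hg, hgρ₀, map_neg]) hm hα hβ h5
  rw [mul_pow, ← map_pow, hρ, ht2, map_mul, Pool.Agent.H10.Over.map_algebraMap, map_map]

end Odd

end H30MG
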