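import Mathlib

/-!
Project MG (MP_78d38b_nt): descent of square classes and conics in a cyclic tower, pure algebra: `φ` is an
endomorphism of the field `Ω` with `φ^[2^(r+1)] = 1`, the fields of the tower are the fixed fields of `φ^[2^j]`.
-/

set_option autoImplicit false
set_option linter.unusedSectionVars false

namespace H30MG

variable {Ω : Type*} [Field Ω] [CharZero Ω]

/-- The local condition over the fixed field of `σ`: `α` or `α ρ^2` is a square, and `β X^2 + ρ^2 Y^2 = 1` is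
solvable. -/
structure LF (σ : Ω → Ω) (ρ α β : Ω) : Prop where
  sq : ∃ a : Ω, σ a = a ∧ (α = a ^ 2 ∨ α * ρ ^ 2 = a ^ 2)
  con : ∃ X Y : Ω, σ X = X ∧ σ Y = Y ∧ β * X ^ 2 + ρ ^ 2 * Y ^ 2 = 1

theorem lf_step (σ : Ω →+* Ω) {ρ α β : Ω} (hρ0 : ρ ≠ 0) (hρ : σ (σ ρ) = -ρ) (hα0 : α ≠ 0)
    (hα : σ α = α) (hβ : σ β = β) (h : LF (fun x => σ (σ x)) ρ α β) : LF σ (ρ * σ ρ) α β := by
  obtain ⟨⟨a, ha, hsq⟩, ⟨X, Y, hX, hY, hc⟩⟩ := h
  have h2 : (2 : Ω) ≠ 0 := two_ne_zero
  have hσρ0 : σ ρ ≠ 0 := (map_ne_zero σ).2 hρ0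
  obtain ⟨n, hn⟩ : ∃ n, n = ρ * σ ρ := ⟨_, rfl⟩
  have hn0 : n ≠ 0 := by
    rw [hn]
    exact mul_ne_zero hρ0 hσρ0
  have hσn : σ n = -n := by
    rw [hn, map_mul, hρ]
    ring
  have hn2 : n ^ 2 = ρ ^ 2 * σ (ρ ^ 2) := by
    rw [hn, map_pow]
    ring
  have hm : ∀ x : Ω, x ^ 2 = 0 → x = 0 := fun x hx => pow_eq_zero_iff (two_ne_zero) |>.1 hx
  -- sign
  have hsgn : ∀ x : Ω, σ (x ^ 2) = x ^ 2 → σ x = x ∨ σ (x * n) = x * n := by
    intro x hx
    rw [map_pow] at hx
    rcases sq_eq_sq_iff_eq_or_eq_neg.1 hx with h1 | h1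
    · exact Or.inl h1
    · right
      rw [map_mul, h1, hσn]
      ring
  rw [← hn]
  refine ⟨?_, ?_⟩
  · rcases hsq with h1 | h1
    · rcases hsgn a (by rw [← h1, hα]) with h3 | h3
      · exact ⟨a, h3, Or.inl h1⟩
      · exact ⟨a * n, h3, Or.inr (by rw [h1]; ring)⟩
    · exfalso
      have h3 : (α * n) ^ 2 = (a * σ a) ^ 2 := by
        have h4 : (a * σ a) ^ 2 = a ^ 2 * σ (a ^ 2) := by
          rw [map_pow]
          ring
        rw [h4, ← h1, map_mul, hα, mul_pow, hn2]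
        ring
      have h5 : σ (a * σ a) = a * σ a := by
        rw [map_mul, ha]
        ring
      have h6 : σ (α * n) = -(α * n) := by
        rw [map_mul, hα, hσn]
        ring
      have h7 : α * n = 0 := by
        rcases sq_eq_sq_iff_eq_or_eq_neg.1 h3 with h8 | h8
        · rw [h8] at h6
          have h9 : 2 * (a * σ a) = 0 := by linear_combination h6 - h5
          rw [h8]
          exact (mul_eq_zero.1 h9).resolve_left h2
        · have h10 : σ (α * n) = α * n := by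
            rw [h8, map_neg, h5]
          have h9 : 2 * (α * n) = 0 := by linear_combination h6 - h10
          exact (mul_eq_zero.1 h9).resolve_left h2
      exact mul_ne_zero hα0 hn0 h7
  · by_cases hY0 : Y = 0
    · rw [hY0] at hc
      have hX0 : X ≠ 0 := by
        rintro rfl
        simp at hc
      -- `β = b ^ 2`
      obtain ⟨b, hb⟩ : ∃ b, b = X⁻¹ := ⟨_, rfl⟩
      have hb2 : β = b ^ 2 := by
        rw [hb]
        field_simp
        linear_combination hc
      have hb0 : b ≠ 0 := by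
        rw [hb]
        exact inv_ne_zero hX0
      rcases hsgn b (by rw [← hb2, hβ]) with h3 | h3
      · refine ⟨b⁻¹, 0, by rw [map_inv₀, h3], map_zero σ, ?_⟩
        rw [hb2]
        field_simp
        ring
      · -- `μ = p + q n`
        obtain ⟨μ, hμ⟩ : ∃ μ, μ = ρ ^ 2 := ⟨_, rfl⟩
        have hσμ : σ (σ μ) = μ := by
          rw [hμ, map_pow, map_pow, hρ]
          ring
        obtain ⟨p, hp⟩ : ∃ p, p = (μ + σ μ) / 2 := ⟨_, rfl⟩
        obtain ⟨q, hq⟩ : ∃ q, q = (μ - σ μ) / (2 * n) := ⟨_, rfl⟩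
        have hσp : σ p = p := by
          rw [hp, map_div₀, map_add, hσμ, map_ofNat]
          ring
        have hσq : σ q = q := by
          rw [hq, map_div₀, map_sub, map_mul, hσμ, map_ofNat, hσn]
          field_simp
          ring
        have hpq : n ^ 2 * (1 + q ^ 2) = p ^ 2 := by
          have h4 : n ^ 2 = μ * σ μ := by
            rw [hn2, hμ]
          have h5 : n ^ 2 * q ^ 2 = (μ - σ μ) ^ 2 / 4 := by
            rw [hq]
            field_simp
            ring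
          rw [mul_add, h5, hp, mul_one, h4]
          ring
        obtain ⟨s, hs⟩ : ∃ s, s = b / n := ⟨_, rfl⟩
        have hs0 : s ≠ 0 := by
          rw [hs]
          exact div_ne_zero hb0 hn0
        have hσs : σ s = s := by
          have h4 : σ b = -b := by
            rw [map_mul, hσn] at h3
            have h5 : n * (σ b + b) = 0 := by linear_combination -h3
            have h6 := (mul_eq_zero.1 h5).resolve_left hn0
            linear_combination h6
          rw [hs, map_div₀, h4, hσn]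
          field_simp
        have hβs : β = n ^ 2 * s ^ 2 := by
          rw [hb2, hs]
          field_simp
        -- the conic `n² x² + n² y² = 1`
        obtain ⟨x, y, hx, hy, hxy⟩ : ∃ x y : Ω, σ x = x ∧ σ y = y ∧ n ^ 2 * (x ^ 2 + y ^ 2) = 1 := by
          by_cases hp0 : p = 0
          · rw [hp0] at hpq
            have h4 : 1 + q ^ 2 = 0 := by
              have h5 : n ^ 2 * (1 + q ^ 2) = 0 := by rw [hpq]; ring
              exact (mul_eq_zero.1 h5).resolve_left (pow_ne_zero 2 hn0)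
            have hq0 : q ≠ 0 := by
              rintro h0
              rw [h0] at h4
              simp at h4
            have hσn2 : σ (n ^ 2) = n ^ 2 := by
              rw [map_pow, hσn]
              ring
            refine ⟨(1 + (n ^ 2)⁻¹) / 2, (1 - (n ^ 2)⁻¹) / (2 * q), ?_, ?_, ?_⟩
            · rw [map_div₀, map_add, map_inv₀, hσn2, map_one, map_ofNat]
            · rw [map_div₀, map_sub, map_inv₀, hσn2, map_one, map_mul, map_ofNat, hσq]
            · have h5 : q ^ 2 = -1 := by linear_combination h4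
              have h6 : ((1 - (n ^ 2)⁻¹) / (2 * q)) ^ 2 = -((1 - (n ^ 2)⁻¹) ^ 2 / 4) := by
                rw [div_pow, mul_pow, h5]
                ring
              rw [h6]
              field_simp
              ring
          · refine ⟨1 / p, q / p, ?_, ?_, ?_⟩
            · rw [map_div₀, map_one, hσp]
            · rw [map_div₀, hσp, hσq]
            · field_simp
              linear_combination hpq
        refine ⟨x / s, y, ?_, hy, ?_⟩
        · rw [map_div₀, hx, hσs]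
        · rw [hβs, ← hxy]
          field_simp
    · obtain ⟨A, hA⟩ : ∃ A, A = Y⁻¹ := ⟨_, rfl⟩
      obtain ⟨B, hB⟩ : ∃ B, B = X / Y := ⟨_, rfl⟩
      have hσA : σ (σ A) = A := by rw [hA, map_inv₀, map_inv₀, hY]
      have hσB : σ (σ B) = B := by rw [hB, map_div₀, map_div₀, hX, hY]
      have hμ : ρ ^ 2 = A ^ 2 - β * B ^ 2 := by
        rw [hA, hB]
        field_simp
        linear_combination hc
      obtain ⟨P, hP⟩ : ∃ P, P = A * σ A + β * (B * σ B) := ⟨_, rfl⟩
      obtain ⟨Q, hQ⟩ : ∃ Q, Q = A * σ B + B * σ A := ⟨_, rfl⟩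
      have hσP : σ P = P := by
        rw [hP]
        simp only [map_add, map_mul, hσA, hσB, hβ]
        ring
      have hσQ : σ Q = Q := by
        rw [hQ]
        simp only [map_add, map_mul, hσA, hσB]
        ring
      have hPQ : n ^ 2 = P ^ 2 - β * Q ^ 2 := by
        rw [hn2, hμ, hP, hQ]
        simp only [map_sub, map_mul, map_pow, hβ]
        ring
      by_cases hP0 : P = 0
      · rw [hP0] at hPQ
        have hQ0 : Q ≠ 0 := by
          intro h0
          rw [h0] at hPQ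
          apply hn0
          apply hm
          rw [hPQ]
          ring
        have hσn2 : σ (n ^ 2) = n ^ 2 := by
          rw [map_pow, hσn]
          ring
        -- `Y' = (1 + 1/n²)/2`, `X' = Q (1/n² - 1)/2`
        refine ⟨Q * ((n ^ 2)⁻¹ - 1) / 2, (1 + (n ^ 2)⁻¹) / 2, ?_, ?_, ?_⟩
        · rw [map_div₀, map_mul, map_sub, map_inv₀, hσn2, map_one, map_ofNat, hσQ]
        · rw [map_div₀, map_add, map_inv₀, hσn2, map_one, map_ofNat]
        · have h5 : β * Q ^ 2 = -n ^ 2 := by linear_combination hPQ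
          have h6 : β * (Q * ((n ^ 2)⁻¹ - 1) / 2) ^ 2 = (β * Q ^ 2) * (((n ^ 2)⁻¹ - 1) ^ 2 / 4) := by
            ring
          rw [h6, h5]
          field_simp
          ring
      · refine ⟨Q / P, 1 / P, ?_, ?_, ?_⟩
        · rw [map_div₀, hσP, hσQ]
        · rw [map_div₀, map_one, hσP]
        · field_simp
          linear_combination hPQ

/-- The product of the conjugates. -/
theorem pr_neg (φ : Ω →+* Ω) (m : ℕ) {ρ : Ω} (hρ0 : ρ ≠ 0) (hρ : φ^[m] ρ = -ρ) :
    φ (∏ i ∈ Finset.range m, φ^[i] ρ) = -∏ i ∈ Finset.range m, φ^[i] ρ := by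
  have h1 : φ (∏ i ∈ Finset.range m, φ^[i] ρ) * ρ = (∏ i ∈ Finset.range m, φ^[i] ρ) * φ^[m] ρ := by
    rw [← Finset.prod_range_succ (fun i => φ^[i] ρ) m, Finset.prod_range_succ', map_prod]
    congr 1
    exact Finset.prod_congr rfl fun i _ => (Function.iterate_succ_apply' φ i ρ).symm
  rw [hρ] at h1
  exact mul_right_cancel₀ hρ0 (by rw [h1]; ring)

theorem lf_tower (φ : Ω →+* Ω) {α β : Ω} (hα0 : α ≠ 0) (hα : φ α = α) (hβ : φ β = β) (r : ℕ) :
    ∀ ρ : Ω, ρ ≠ 0 → φ^[2 ^ r] ρ = -ρ → LF (φ^[2 ^ r]) ρ α β →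
      ∃ ρ₀ : Ω, ρ₀ ≠ 0 ∧ φ ρ₀ = -ρ₀ ∧ LF φ ρ₀ α β := by
  induction r with
  | zero =>
    intro ρ h0 h1 h2
    exact ⟨ρ, h0, h1, h2⟩
  | succ r ih =>
    intro ρ h0 h1 h2
    have hc : ∀ x, (φ ^ (2 ^ r)) x = φ^[2 ^ r] x := fun x => by
      rw [RingHom.coe_pow]
    have hcc : ∀ x, (φ ^ (2 ^ r)) ((φ ^ (2 ^ r)) x) = φ^[2 ^ (r + 1)] x := fun x => by
      rw [hc, hc, ← Function.iterate_add_apply]
      congr 1
      ring
    have h3 : (fun x => (φ ^ (2 ^ r)) ((φ ^ (2 ^ r)) x)) = φ^[2 ^ (r + 1)] := funext hcc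
    have hα' : (φ ^ (2 ^ r)) α = α := by
      rw [hc]
      exact Function.iterate_fixed hα _
    have hβ' : (φ ^ (2 ^ r)) β = β := by
      rw [hc]
      exact Function.iterate_fixed hβ _
    have hs := lf_step (φ ^ (2 ^ r)) h0 (by rw [hcc]; exact h1) hα0 hα' hβ' (by rw [h3]; exact h2)
    have h4 : (⇑(φ ^ (2 ^ r)) : Ω → Ω) = φ^[2 ^ r] := RingHom.coe_pow φ _
    rw [h4] at hs
    refine ih _ (mul_ne_zero h0 ?_) ?_ hs
    · rw [← h4]
      exact (map_ne_zero _).2 h0
    · rw [← h4, map_mul, hcc, h1]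
      ring

/-- The condition depends on `ρ` only up to a fixed factor. -/
theorem LF.scale {σ : Ω →+* Ω} {ρ ρ' α β : Ω} (hρ : ρ ≠ 0) (hρ' : ρ' ≠ 0) (h1 : σ ρ = -ρ)
    (h1' : σ ρ' = -ρ') (h : LF σ ρ α β) : LF σ ρ' α β := by
  obtain ⟨⟨a, ha, hsq⟩, ⟨X, Y, hX, hY, hc⟩⟩ := h
  obtain ⟨c, hc'⟩ : ∃ c, c = ρ' / ρ := ⟨_, rfl⟩
  have hc0 : c ≠ 0 := by
    rw [hc']
    exact div_ne_zero hρ' hρ
  have hσc : σ c = c := by
    rw [hc', map_div₀, h1, h1']
    field_simp
  have hρc : ρ' = c * ρ := by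
    rw [hc']
    field_simp
  refine ⟨?_, X, Y / c, hX, by rw [map_div₀, hY, hσc], ?_⟩
  · rcases hsq with h2 | h2
    · exact ⟨a, ha, Or.inl h2⟩
    · refine ⟨a * c, by rw [map_mul, ha, hσc], Or.inr ?_⟩
      rw [hρc]
      linear_combination c ^ 2 * h2
  · rw [hρc, ← hc]
    field_simp

/-- **The cyclic tower.** -/
theorem lf_all (φ : Ω →+* Ω) {α β : Ω} (hα0 : α ≠ 0) (hα : φ α = α) (hβ : φ β = β) (r : ℕ)
    {ρ ρ₀ : Ω} (hρ0 : ρ ≠ 0) (hρ : φ^[2 ^ r] ρ = -ρ) (h : LF (φ^[2 ^ r]) ρ α β)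
    (hρ₀ : ρ₀ ≠ 0) (hφ : φ ρ₀ = -ρ₀) : LF φ ρ₀ α β := by
  obtain ⟨ρ', h1, h2, h3⟩ := lf_tower φ hα0 hα hβ r ρ hρ0 hρ h
  exact h3.scale h1 hρ₀ h2 hφ

end H30MG
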